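import Pool.Agent.V11119.TriDec.Geo

/-!
# Solutions of the edge equations have order two
-/

set_option autoImplicit false

namespace Pool.Agent.V11119.TriDec

open Finset
open scoped Classical

section

variable {V : Type} [Fintype V] {G : SimpleGraph V} {p : V → ℝ × ℝ}

/-- The positively oriented sides of a triangle. -/
noncomputable def sides (p : V → ℝ × ℝ) (T : Finset V) : Finset (V × V) :=
  univ.filter fun e => L p T e.1 e.2

theorem mem_sides {T : Finset V} {e : V × V} : e ∈ sides p T ↔ L p T e.1 e.2 := by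
  simp [sides]

theorem sides_eq {a b c : V} (h : 0 < D (p a) (p b) (p c)) :
    sides p {a, b, c} = {(a, b), (b, c), (c, a)} := by
  ext ⟨u, v⟩
  rw [mem_sides]
  simp only [mem_insert, mem_singleton, Prod.mk.injEq]
  exact L_iff h u v

theorem ne_of_D {a b c : V} (h : 0 < D (p a) (p b) (p c)) : a ≠ b ∧ b ≠ c ∧ c ≠ a := by
  refine ⟨?_, ?_, ?_⟩ <;> rintro rfl
  · rw [D_self] at h; exact lt_irrefl _ h
  · rw [D_self'] at h; exact lt_irrefl _ h
  · rw [D_self''] at h; exact lt_irrefl _ h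

theorem sum_sides {M : Type} [AddCommMonoid M] {a b c : V} (h : 0 < D (p a) (p b) (p c))
    (ψ : V × V → M) : ∑ e ∈ sides p {a, b, c}, ψ e = ψ (a, b) + (ψ (b, c) + ψ (c, a)) := by
  obtain ⟨h1, h2, h3⟩ := ne_of_D h
  rw [sides_eq h, sum_insert, sum_insert, sum_singleton]
  · simp only [mem_singleton, Prod.mk.injEq, not_and]
    intro h; exact absurd h h2
  · simp only [mem_insert, mem_singleton, Prod.mk.injEq, not_or, not_and]
    exact ⟨fun h => absurd h h1, fun h => absurd h h3.symm⟩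

/-- The contribution of the tiles on the left of a directed pair. -/
noncomputable def AA {A : Type} [AddCommGroup A] (p : V → ℝ × ℝ) (PP : Finset (Finset V))
    (θ : Finset V → A) (e : V × V) : A :=
  ∑ P ∈ PP.filter (fun P => e ∈ sides p P), θ P

theorem h_AA {A : Type} [AddCommGroup A] {PP : Finset (Finset V)} {θ : Finset V → A}
    (hU : ∀ P ∈ PP, ∀ Q ∈ PP, ∀ e, e ∈ sides p P → e ∈ sides p Q → P = Q) {h : A → ℤ}
    (h0 : h 0 = 0) (e : V × V) :
    h (AA p PP θ e) = ∑ P ∈ PP.filter (fun P => e ∈ sides p P), h (θ P) := by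
  unfold AA
  rcases (PP.filter (fun P => e ∈ sides p P)).eq_empty_or_nonempty with h1 | ⟨P, hP⟩
  · rw [h1]; simp [h0]
  · have : PP.filter (fun P => e ∈ sides p P) = {P} := by
      ext Q
      rw [mem_singleton]
      constructor
      · intro hQ
        rw [mem_filter] at hP hQ
        exact hU Q hQ.1 P hP.1 e hQ.2 hP.2
      · rintro rfl; exact hP
    rw [this]; simp

/-- Double counting of the sides of the tiles. -/
theorem sum_tiles {A : Type} [AddCommGroup A] {PP : Finset (Finset V)} {θ : Finset V → A}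
    (hU : ∀ P ∈ PP, ∀ Q ∈ PP, ∀ e, e ∈ sides p P → e ∈ sides p Q → P = Q) {h : A → ℤ}
    (h0 : h 0 = 0) (ψ : V × V → ℝ) :
    ∑ P ∈ PP, (h (θ P) : ℝ) * ∑ e ∈ sides p P, ψ e =
      ∑ e : V × V, (h (AA p PP θ e) : ℝ) * ψ e := by
  have e1 : ∀ P ∈ PP, (h (θ P) : ℝ) * ∑ e ∈ sides p P, ψ e =
      ∑ e : V × V, if e ∈ sides p P then (h (θ P) : ℝ) * ψ e else 0 := by
    intro P _
    rw [mul_sum, ← sum_filter]
    congr 1
    ext e; simp
  rw [sum_congr rfl e1, sum_comm]
  apply sum_congr rfl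
  intro e _
  rw [h_AA hU h0, Int.cast_sum, sum_mul, ← sum_filter]

/-- Sums that cancel on inner edges. -/
theorem sum_boundary {g : V × V → ℝ} {B : Finset (V × V)} (hB : ∀ e ∈ B, g e.swap = 0 ∧ e.swap ∉ B)
    (hin : ∀ e, e ∉ B → e.swap ∉ B → g e + g e.swap = 0) : ∑ e : V × V, g e = ∑ e ∈ B, g e := by
  have e1 : ∑ e : V × V, g e.swap = ∑ e : V × V, g e :=
    Fintype.sum_equiv (Equiv.prodComm V V) _ _ fun e => rfl
  have e2 : ∀ e : V × V, g e + g e.swap = (if e ∈ B then g e else 0) +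
      (if e.swap ∈ B then g e.swap else 0) := by
    intro e
    by_cases h1 : e ∈ B
    · have := hB e h1
      rw [if_pos h1, if_neg this.2, this.1]
    · by_cases h2 : e.swap ∈ B
      · have := hB _ h2
        rw [Prod.swap_swap] at this
        rw [if_neg h1, if_pos h2, this.1]
      · rw [if_neg h1, if_neg h2, hin e h1 h2, add_zero]
  have e3 : ∑ e : V × V, (if e.swap ∈ B then g e.swap else 0) =
      ∑ e : V × V, (if e ∈ B then g e else 0) :=
    Fintype.sum_equiv (Equiv.prodComm V V) _ _ fun e => rfl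
  have e4 : ∑ e : V × V, (if e ∈ B then g e else 0) = ∑ e ∈ B, g e := by
    rw [← sum_filter]; congr 1; ext e; simp
  have e5 : ∑ e : V × V, (g e + g e.swap) = ∑ e : V × V, ((if e ∈ B then g e else 0) +
      (if e.swap ∈ B then g e.swap else 0)) := sum_congr rfl fun e _ => e2 e
  rw [sum_add_distrib, sum_add_distrib, e1, e3, e4] at e5
  linarith

/-- The cross product. -/
def cross (p : V → ℝ × ℝ) (e : V × V) : ℝ := (p e.1).1 * (p e.2).2 - (p e.1).2 * (p e.2).1

theorem sum_cross {T : Finset V} (hp : Drawing G p) (hT : IsTri G T) :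
    0 < ∑ e ∈ sides p T, cross p e := by
  obtain ⟨a, b, c, rfl, -, -, -, h⟩ := tri_orient hp hT
  rw [sum_sides h]
  have : cross p (a, b) + (cross p (b, c) + cross p (c, a)) = D (p a) (p b) (p c) := by
    unfold cross D; ring
  rw [this]; exact h

theorem sum_diff {T : Finset V} (hp : Drawing G p) (hT : IsTri G T) (g : V → ℝ) :
    ∑ e ∈ sides p T, (g e.1 - g e.2) = 0 := by
  obtain ⟨a, b, c, rfl, -, -, -, h⟩ := tri_orient hp hT
  rw [sum_sides h]
  ring

theorem sum_one {T : Finset V} (hp : Drawing G p) (hT : IsTri G T) :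
    ∑ e ∈ sides p T, (1 : ℝ) = 3 := by
  obtain ⟨a, b, c, rfl, -, -, -, h⟩ := tri_orient hp hT
  rw [sum_sides h]
  norm_num

/-- Tiles all of whose inner edges balance: no boundary. -/
theorem tiles_zero {A : Type} [AddCommGroup A] (hp : Drawing G p) {PP : Finset (Finset V)}
    {θ : Finset V → A} (hPP : ∀ P ∈ PP, IsTri G P)
    (hU : ∀ P ∈ PP, ∀ Q ∈ PP, ∀ e, e ∈ sides p P → e ∈ sides p Q → P = Q)
    (hin : ∀ e, AA p PP θ e + AA p PP θ e.swap = 0) : ∀ P ∈ PP, θ P = 0 := by
  intro P0 hP0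
  by_contra hne
  set θ0 := θ P0 with hθ0
  let h : A → ℤ := fun x => if x = θ0 ∨ x = -θ0 then 1 else 0
  have h0 : h 0 = 0 := by
    simp only [h]
    rw [if_neg]
    rintro (h' | h')
    · exact hne h'.symm
    · exact hne (neg_eq_zero.1 h'.symm)
  have heven : ∀ x, h (-x) = h x := by
    intro x
    simp only [h]
    congr 1
    simp only [eq_iff_iff]
    constructor
    · rintro (h' | h')
      · right; rw [← h', neg_neg]
      · left; exact neg_injective h'
    · rintro (h' | h')
      · right; rw [h']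
      · left; rw [h', neg_neg]
  have h1 := sum_tiles (θ := θ) hU h0 (cross p)
  rw [sum_boundary (B := ∅)] at h1
  · rw [sum_empty] at h1
    have h2 : 0 < ∑ P ∈ PP, (h (θ P) : ℝ) * ∑ e ∈ sides p P, cross p e := by
      apply sum_pos'
      · intro P hP
        have := sum_cross hp (hPP P hP)
        have h3 : (0 : ℝ) ≤ (h (θ P) : ℝ) := by
          simp only [h]; split_ifs <;> simp
        positivity
      · refine ⟨P0, hP0, ?_⟩
        have := sum_cross hp (hPP P0 hP0)
        have h3 : (h (θ P0) : ℝ) = 1 := by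
          simp only [h]; rw [if_pos (Or.inl hθ0.symm)]; simp
        rw [h3, one_mul]; exact this
    linarith
  · intro e he; simp at he
  · intro e _ _
    have h2 : AA p PP θ e.swap = - AA p PP θ e := by
      rw [eq_neg_iff_add_eq_zero, add_comm]; exact hin e
    rw [h2, heven]
    unfold cross
    simp only [Prod.fst_swap, Prod.snd_swap]
    ring

/-- Tiles whose inner edges balance inside a triangle: the boundary values are those of any tile
with a nonzero value, up to the sign. -/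
theorem tiles_boundary {A : Type} [AddCommGroup A] (hp : Drawing G p) {PP : Finset (Finset V)}
    {θ : Finset V → A} (hPP : ∀ P ∈ PP, IsTri G P)
    (hU : ∀ P ∈ PP, ∀ Q ∈ PP, ∀ e, e ∈ sides p P → e ∈ sides p Q → P = Q)
    {T : Finset V} (hT : IsTri G T) (hB : ∀ e ∈ sides p T, AA p PP θ e.swap = 0)
    (hin : ∀ e, e ∉ sides p T → e.swap ∉ sides p T → AA p PP θ e + AA p PP θ e.swap = 0)
    {P0 : Finset V} (hP0 : P0 ∈ PP) (hne : θ P0 ≠ 0) :
    ∀ e ∈ sides p T, AA p PP θ e = θ P0 ∨ AA p PP θ e = -θ P0 := by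
  set θ0 := θ P0 with hθ0
  let h : A → ℤ := fun x => if x = θ0 ∨ x = -θ0 then 1 else 0
  have h0 : h 0 = 0 := by
    simp only [h]
    rw [if_neg]
    rintro (h' | h')
    · exact hne h'.symm
    · exact hne (neg_eq_zero.1 h'.symm)
  have heven : ∀ x, h (-x) = h x := by
    intro x
    simp only [h]
    congr 1
    simp only [eq_iff_iff]
    constructor
    · rintro (h' | h')
      · right; rw [← h', neg_neg]
      · left; exact neg_injective h'
    · rintro (h' | h')
      · right; rw [h']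
      · left; rw [h', neg_neg]
  -- Stokes for antisymmetric functions
  have stokes : ∀ ψ : V × V → ℝ, (∀ e, ψ e.swap = - ψ e) →
      ∑ P ∈ PP, (h (θ P) : ℝ) * ∑ e ∈ sides p P, ψ e =
        ∑ e ∈ sides p T, (h (AA p PP θ e) : ℝ) * ψ e := by
    intro ψ hψ
    rw [sum_tiles (θ := θ) hU h0 ψ]
    apply sum_boundary
    · intro e he
      refine ⟨by rw [hB e he, h0]; simp, ?_⟩
      rw [mem_sides] at he ⊢
      exact L.not_symm hp hT he
    · intro e he he'
      have h2 : AA p PP θ e.swap = - AA p PP θ e := by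
        rw [eq_neg_iff_add_eq_zero, add_comm]; exact hin e he he'
      rw [h2, heven, hψ]; ring
  obtain ⟨a, b, c, hTe, -, -, -, hD⟩ := tri_orient hp hT
  obtain ⟨n1, n2, n3⟩ := ne_of_D hD
  have s1 := stokes (fun e => (if e.1 = a then 1 else 0) - (if e.2 = a then 1 else 0))
    (fun e => by simp)
  have s2 := stokes (fun e => (if e.1 = b then 1 else 0) - (if e.2 = b then 1 else 0))
    (fun e => by simp)
  have s3 := stokes (cross p) (fun e => by unfold cross; simp only [Prod.fst_swap, Prod.snd_swap]; ring)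
  have z1 : ∑ P ∈ PP, (h (θ P) : ℝ) * ∑ e ∈ sides p P,
      ((if e.1 = a then (1 : ℝ) else 0) - (if e.2 = a then 1 else 0)) = 0 := by
    apply sum_eq_zero
    intro P hP
    rw [sum_diff hp (hPP P hP) (fun x => if x = a then (1 : ℝ) else 0), mul_zero]
  have z2 : ∑ P ∈ PP, (h (θ P) : ℝ) * ∑ e ∈ sides p P,
      ((if e.1 = b then (1 : ℝ) else 0) - (if e.2 = b then 1 else 0)) = 0 := by
    apply sum_eq_zero
    intro P hP
    rw [sum_diff hp (hPP P hP) (fun x => if x = b then (1 : ℝ) else 0), mul_zero]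
  rw [z1, hTe, sum_sides hD] at s1
  rw [z2, hTe, sum_sides hD] at s2
  simp only [if_true, if_neg n1, if_neg n1.symm, if_neg n2, if_neg n2.symm, if_neg n3,
    if_neg n3.symm] at s1 s2
  have s3' : 0 < ∑ e ∈ sides p T, (h (AA p PP θ e) : ℝ) * cross p e := by
    rw [← s3]
    apply sum_pos'
    · intro P hP
      have := sum_cross hp (hPP P hP)
      have h3 : (0 : ℝ) ≤ (h (θ P) : ℝ) := by
        simp only [h]; split_ifs <;> simp
      positivity
    · refine ⟨P0, hP0, ?_⟩
      have := sum_cross hp (hPP P0 hP0)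
      have h3 : (h (θ P0) : ℝ) = 1 := by
        simp only [h]; rw [if_pos (Or.inl hθ0.symm)]; simp
      rw [h3, one_mul]; exact this
  rw [hTe, sum_sides hD] at s3'
  have e1 : (h (AA p PP θ (a, b)) : ℝ) = h (AA p PP θ (c, a)) := by linarith
  have e2 : (h (AA p PP θ (b, c)) : ℝ) = h (AA p PP θ (a, b)) := by linarith
  have e3 : (h (AA p PP θ (a, b)) : ℝ) ≠ 0 := by
    intro h'
    rw [e2, ← e1, h'] at s3'
    simp at s3'
  have key : ∀ x, (h x : ℝ) ≠ 0 → x = θ0 ∨ x = -θ0 := by
    intro x hx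
    by_contra hcon
    apply hx
    simp only [h]
    rw [if_neg hcon]; simp
  intro e he
  rw [hTe, sides_eq hD] at he
  simp only [mem_insert, mem_singleton] at he
  rcases he with rfl | rfl | rfl
  · exact key _ e3
  · exact key _ (by rw [e2]; exact e3)
  · exact key _ (by rw [← e1]; exact e3)

/-- If moreover `2 θ ≠ 0`, the three boundary values agree, and they are the value of an odd
function that counts the tiles with signs. -/
theorem tiles_sign {A : Type} [AddCommGroup A] (hp : Drawing G p) {PP : Finset (Finset V)}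
    {θ : Finset V → A} (hPP : ∀ P ∈ PP, IsTri G P)
    (hU : ∀ P ∈ PP, ∀ Q ∈ PP, ∀ e, e ∈ sides p P → e ∈ sides p Q → P = Q)
    {T : Finset V} (hT : IsTri G T) (hB : ∀ e ∈ sides p T, AA p PP θ e.swap = 0)
    (hin : ∀ e, e ∉ sides p T → e.swap ∉ sides p T → AA p PP θ e + AA p PP θ e.swap = 0)
    {h : A → ℤ} (hodd : ∀ x, h (-x) = - h x)
    (hpm : ∀ e ∈ sides p T, h (AA p PP θ e) = 1 ∨ h (AA p PP θ e) = -1) :
    ∃ s : ℤ, (s = 1 ∨ s = -1) ∧ ∀ e ∈ sides p T, h (AA p PP θ e) = s := by
  have h0 : h 0 = 0 := by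
    have := hodd 0
    rw [neg_zero] at this
    omega
  have s1 : ∑ P ∈ PP, (h (θ P) : ℝ) * ∑ e ∈ sides p P, (1 : ℝ) =
        ∑ e ∈ sides p T, (h (AA p PP θ e) : ℝ) * 1 := by
    rw [sum_tiles (θ := θ) hU h0 (fun _ => (1 : ℝ))]
    apply sum_boundary
    · intro e he
      refine ⟨by rw [hB e he, h0]; simp, ?_⟩
      rw [mem_sides] at he ⊢
      exact L.not_symm hp hT he
    · intro e he he'
      have h2 : AA p PP θ e.swap = - AA p PP θ e := by
        rw [eq_neg_iff_add_eq_zero, add_comm]; exact hin e he he'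
      rw [h2, hodd]; push_cast; ring
  have s2 : ∑ P ∈ PP, (h (θ P) : ℝ) * ∑ e ∈ sides p P, (1 : ℝ) =
      ((∑ P ∈ PP, h (θ P) * 3 : ℤ) : ℝ) := by
    push_cast
    apply sum_congr rfl
    intro P hP
    rw [sum_one hp (hPP P hP)]
  rw [s2] at s1
  obtain ⟨a, b, c, rfl, -, -, -, hD⟩ := tri_orient hp hT
  rw [sum_sides hD] at s1
  rw [← sum_mul] at s1
  have s3 : (∑ P ∈ PP, h (θ P)) * 3 = h (AA p PP θ (a, b)) + (h (AA p PP θ (b, c)) +
      h (AA p PP θ (c, a))) := by
    have : (((∑ P ∈ PP, h (θ P)) * 3 : ℤ) : ℝ) = ((h (AA p PP θ (a, b)) + (h (AA p PP θ (b, c)) +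
      h (AA p PP θ (c, a))) : ℤ) : ℝ) := by
      rw [s1]; push_cast; ring
    exact_mod_cast this
  have m1 : (a, b) ∈ sides p {a, b, c} := by rw [sides_eq hD]; simp
  have m2 : (b, c) ∈ sides p {a, b, c} := by rw [sides_eq hD]; simp
  have m3 : (c, a) ∈ sides p {a, b, c} := by rw [sides_eq hD]; simp
  have p1 := hpm _ m1
  have p2 := hpm _ m2
  have p3 := hpm _ m3
  refine ⟨h (AA p PP θ (a, b)), p1, ?_⟩
  intro e he
  rw [sides_eq hD] at he
  simp only [mem_insert, mem_singleton] at he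
  rcases he with rfl | rfl | rfl
  · rfl
  · omega
  · omega

end

end Pool.Agent.V11119.TriDec
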