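import Mathlib

/-!
# Definitions for rational triangle decompositions of planar multigraphs
-/

set_option autoImplicit false

namespace Pool.Agent.V11119.TriDec

/-- A multigraph on the vertex set `V` with the edge set `E` and without loops: every edge has two
different ends, and several edges may have the same ends. -/
structure MGraph (V E : Type) where
  /-- the two ends of an edge -/
  ends : E → Sym2 V
  /-- there are no loops -/
  loopless : ∀ e, ¬ (ends e).IsDiag

/-- The underlying simple graph. -/
def MGraph.simple {V E : Type} (M : MGraph V E) : SimpleGraph V where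
  Adj u v := ∃ e, M.ends e = s(u, v)
  symm := ⟨fun u v ⟨e, he⟩ => ⟨e, by rw [he, Sym2.eq_swap]⟩⟩
  loopless := ⟨fun u ⟨e, he⟩ => M.loopless e (by rw [he]; exact Sym2.mk_isDiag_iff.2 rfl)⟩

/-- `p` is a straight-line crossing-free drawing of `G`: distinct vertices are distinct points, no
vertex lies on the closed segment of an edge except its two ends, and the segments of two different
edges meet only in a common end vertex. -/
def Drawing {V : Type} (G : SimpleGraph V) (p : V → ℝ × ℝ) : Prop :=
  Function.Injective p ∧
    (∀ u v w : V, G.Adj u v → w ≠ u → w ≠ v → p w ∉ segment ℝ (p u) (p v)) ∧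
    (∀ u v x y : V, G.Adj u v → G.Adj x y → s(u, v) ≠ s(x, y) →
      ∀ z ∈ segment ℝ (p u) (p v), z ∈ segment ℝ (p x) (p y) →
        ∃ w : V, (w = u ∨ w = v) ∧ (w = x ∨ w = y) ∧ z = p w)

/-- A multigraph is planar if its underlying simple graph has a crossing-free drawing; by the theorem
of Fáry the edges of such a drawing may be taken to be straight segments. -/
def MGraph.Planar {V E : Type} (M : MGraph V E) : Prop := ∃ p : V → ℝ × ℝ, Drawing M.simple p

/-- `t` is the edge set of a triangle: three distinct vertices `u, v, w` together with one chosen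
edge joining `u, v`, one joining `v, w` and one joining `w, u`. -/
def MGraph.IsTriangle {V E : Type} [DecidableEq E] (M : MGraph V E) (t : Finset E) : Prop :=
  ∃ u v w : V, u ≠ v ∧ v ≠ w ∧ w ≠ u ∧ ∃ e f g : E,
    M.ends e = s(u, v) ∧ M.ends f = s(v, w) ∧ M.ends g = s(w, u) ∧ t = {e, f, g}

/-- `w` is a rational `K₃`-decomposition: nonnegative rational weights of the triangles such that for
every edge the weights of the triangles that contain it sum to `1`. -/
def MGraph.IsDecomposition {V E : Type} [Fintype E] [DecidableEq E] (M : MGraph V E)
    (w : Finset E → ℚ) : Prop :=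
  (∀ t, 0 ≤ w t) ∧ (∀ t, ¬ M.IsTriangle t → w t = 0) ∧
    ∀ e, ∑ t ∈ Finset.univ.filter (fun t => e ∈ t), w t = 1

end Pool.Agent.V11119.TriDec
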