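import Pool.Agent.V11119.TriDec.Defs

/-!
# Triangles in straight-line drawings
-/

set_option autoImplicit false

namespace Pool.Agent.V11119.TriDec

/-- Twice the signed area of the triangle `abc`. -/
def D (a b c : ℝ × ℝ) : ℝ := (b.1 - a.1) * (c.2 - a.2) - (b.2 - a.2) * (c.1 - a.1)

theorem D_rot (a b c : ℝ × ℝ) : D b c a = D a b c := by unfold D; ring
theorem D_rot' (a b c : ℝ × ℝ) : D c a b = D a b c := by unfold D; ring
theorem D_swap (a b c : ℝ × ℝ) : D b a c = - D a b c := by unfold D; ring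
theorem D_swap' (a b c : ℝ × ℝ) : D a c b = - D a b c := by unfold D; ring
theorem D_self (a c : ℝ × ℝ) : D a a c = 0 := by unfold D; ring
theorem D_self' (a c : ℝ × ℝ) : D a c c = 0 := by unfold D; ring
theorem D_self'' (a c : ℝ × ℝ) : D a c a = 0 := by unfold D; ring

theorem D_bary (a b c x y z : ℝ × ℝ) :
    D a b c * D y z x = D b c x * D y z a + D c a x * D y z b + D a b x * D y z c := by
  unfold D; ring

theorem D_sum (a b c x : ℝ × ℝ) : D b c x + D c a x + D a b x = D a b c := by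
  unfold D; ring

theorem D_comb (a b y z : ℝ × ℝ) (t : ℝ) :
    D a b ((1 - t) • y + t • z) = (1 - t) * D a b y + t * D a b z := by
  unfold D
  simp only [Prod.fst_add, Prod.snd_add, Prod.smul_fst, Prod.smul_snd, smul_eq_mul]
  ring

theorem D_seg {a b y z x : ℝ × ℝ} (h : x ∈ segment ℝ y z) (hy : 0 ≤ D a b y) (hz : 0 ≤ D a b z) :
    0 ≤ D a b x := by
  rw [segment_eq_image] at h
  obtain ⟨t, ⟨h0, h1⟩, rfl⟩ := h
  simp only
  rw [D_comb]
  have : 0 ≤ 1 - t := by linarith
  positivity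

theorem D_on_seg {a b x : ℝ × ℝ} (h : x ∈ segment ℝ a b) : D a b x = 0 := by
  rw [segment_eq_image] at h
  obtain ⟨t, -, rfl⟩ := h
  simp only
  rw [D_comb, D_self', D_self'']
  ring

/-- A point with nonnegative coordinates on the line `ab` lies on the segment `ab`. -/
theorem mem_side {a b c w : ℝ × ℝ} (h : 0 < D a b c) (h1 : D a b w = 0) (h2 : 0 ≤ D b c w)
    (h3 : 0 ≤ D c a w) : w ∈ segment ℝ a b := by
  have hs := D_sum a b c w
  rw [h1, add_zero] at hs
  rw [segment_eq_image]
  refine ⟨D c a w / D a b c, ⟨by positivity, ?_⟩, ?_⟩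
  · rw [div_le_one h]; linarith
  · have e1 : D a b c * w.1 = D b c w * a.1 + D c a w * b.1 + D a b w * c.1 := by
      unfold D; ring
    have e2 : D a b c * w.2 = D b c w * a.2 + D c a w * b.2 + D a b w * c.2 := by
      unfold D; ring
    rw [h1, zero_mul, add_zero] at e1 e2
    have hb : D b c w = D a b c - D c a w := by linarith
    rw [hb] at e1 e2
    have hne : D a b c ≠ 0 := h.ne'
    ext
    · simp only [Prod.fst_add, Prod.smul_fst, smul_eq_mul]
      field_simp
      linarith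
    · simp only [Prod.snd_add, Prod.smul_snd, smul_eq_mul]
      field_simp
      linarith

/-- Leaving a triangle along a segment. -/
theorem exit {a b c y z : ℝ × ℝ} (h : 0 < D a b c) (hy1 : 0 < D a b y) (hy2 : 0 < D b c y)
    (hy3 : 0 < D c a y) (hz : D a b z < 0 ∨ D b c z < 0 ∨ D c a z < 0) :
    ∃ t : ℝ, 0 < t ∧ t < 1 ∧ (((1 - t) • y + t • z) ∈ segment ℝ a b ∨
      ((1 - t) • y + t • z) ∈ segment ℝ b c ∨ ((1 - t) • y + t • z) ∈ segment ℝ c a) := by
  let s : ℝ → ℝ → ℝ := fun u v => if v < 0 then u / (u - v) else 1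
  have hs : ∀ u v, s u v = if v < 0 then u / (u - v) else 1 := fun _ _ => rfl
  have hspos : ∀ u v, 0 < u → 0 < s u v := by
    intro u v hu
    rw [hs]
    split_ifs with hv
    · have : 0 < u - v := by linarith
      positivity
    · exact one_pos
  have hs1 : ∀ u v, 0 < u → s u v ≤ 1 := by
    intro u v hu
    rw [hs]
    split_ifs with hv
    · have : 0 < u - v := by linarith
      rw [div_le_one this]; linarith
    · exact le_rfl
  have hslt : ∀ u v, 0 < u → v < 0 → s u v < 1 := by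
    intro u v hu hv
    rw [hs, if_pos hv]
    have : 0 < u - v := by linarith
    rw [div_lt_one this]; linarith
  -- nonnegativity up to the exit parameter
  have hnn : ∀ u v t, 0 < u → 0 ≤ t → t ≤ 1 → t ≤ s u v → 0 ≤ (1 - t) * u + t * v := by
    intro u v t hu ht0 ht1 hts
    by_cases hv : v < 0
    · rw [hs, if_pos hv] at hts
      have h' : 0 < u - v := by linarith
      rw [le_div_iff₀ h'] at hts
      nlinarith
    · have : 0 ≤ 1 - t := by linarith
      have : 0 ≤ v := not_lt.1 hv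
      positivity
  have heq : ∀ u v t, 0 < u → t < 1 → t = s u v → (1 - t) * u + t * v = 0 := by
    intro u v t hu ht1 hts
    have hv : v < 0 := by
      by_contra hv
      rw [hs, if_neg hv] at hts
      linarith
    rw [hs, if_pos hv] at hts
    have h' : u - v ≠ 0 := by linarith
    rw [hts]
    field_simp
    ring
  set t := min (s (D a b y) (D a b z)) (min (s (D b c y) (D b c z)) (s (D c a y) (D c a z)))
    with ht
  have ht0 : 0 < t := lt_min (hspos _ _ hy1) (lt_min (hspos _ _ hy2) (hspos _ _ hy3))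
  have hta : t ≤ s (D a b y) (D a b z) := min_le_left _ _
  have htb : t ≤ s (D b c y) (D b c z) := (min_le_right _ _).trans (min_le_left _ _)
  have htc : t ≤ s (D c a y) (D c a z) := (min_le_right _ _).trans (min_le_right _ _)
  have ht1 : t < 1 := by
    rcases hz with hz | hz | hz
    · exact hta.trans_lt (hslt _ _ hy1 hz)
    · exact htb.trans_lt (hslt _ _ hy2 hz)
    · exact htc.trans_lt (hslt _ _ hy3 hz)
  have n1 : 0 ≤ D a b ((1 - t) • y + t • z) := by
    rw [D_comb]; exact hnn _ _ _ hy1 ht0.le ht1.le hta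
  have n2 : 0 ≤ D b c ((1 - t) • y + t • z) := by
    rw [D_comb]; exact hnn _ _ _ hy2 ht0.le ht1.le htb
  have n3 : 0 ≤ D c a ((1 - t) • y + t • z) := by
    rw [D_comb]; exact hnn _ _ _ hy3 ht0.le ht1.le htc
  refine ⟨t, ht0, ht1, ?_⟩
  rcases min_choice (s (D a b y) (D a b z))
    (min (s (D b c y) (D b c z)) (s (D c a y) (D c a z))) with h1 | h1
  · left
    apply mem_side h _ n2 n3
    rw [D_comb]
    exact heq _ _ _ hy1 ht1 (ht.trans h1)
  · right
    rcases min_choice (s (D b c y) (D b c z)) (s (D c a y) (D c a z)) with h2 | h2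
    · left
      apply mem_side (by rw [D_rot]; exact h) _ n3 n1
      rw [D_comb]
      exact heq _ _ _ hy2 ht1 ((ht.trans h1).trans h2)
    · right
      apply mem_side (by rw [D_rot']; exact h) _ n1 n2
      rw [D_comb]
      exact heq _ _ _ hy3 ht1 ((ht.trans h1).trans h2)

section

variable {V : Type} [DecidableEq V] {G : SimpleGraph V} {p : V → ℝ × ℝ}

/-- The triangles of `G`. -/
def IsTri (G : SimpleGraph V) (T : Finset V) : Prop :=
  ∃ a b c, T = {a, b, c} ∧ G.Adj a b ∧ G.Adj b c ∧ G.Adj c a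

omit [DecidableEq V] in
theorem nondeg (hp : Drawing G p) {a b c : V} (hab : G.Adj a b) (hbc : G.Adj b c)
    (hca : G.Adj c a) : D (p a) (p b) (p c) ≠ 0 := by
  intro h
  have hne : p a ≠ p b := fun h' => hab.ne (hp.1 h')
  set A := p a
  set B := p b
  set C := p c
  set n := (B.1 - A.1) ^ 2 + (B.2 - A.2) ^ 2 with hn
  have hnpos : 0 < n := by
    rcases eq_or_ne B.1 A.1 with h1 | h1
    · have h2 : B.2 ≠ A.2 := fun h2 => hne (Prod.ext h1.symm h2.symm)
      have : 0 < (B.2 - A.2) ^ 2 := by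
        have : B.2 - A.2 ≠ 0 := sub_ne_zero.2 h2
        positivity
      have := sq_nonneg (B.1 - A.1)
      linarith
    · have : 0 < (B.1 - A.1) ^ 2 := by
        have : B.1 - A.1 ≠ 0 := sub_ne_zero.2 h1
        positivity
      have := sq_nonneg (B.2 - A.2)
      linarith
  set m := (C.1 - A.1) * (B.1 - A.1) + (C.2 - A.2) * (B.2 - A.2) with hm
  have e1 : (C.1 - A.1) * n = m * (B.1 - A.1) := by
    have : (C.1 - A.1) * n - m * (B.1 - A.1) = - (B.2 - A.2) * D A B C := by
      rw [hn, hm]; unfold D; ring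
    rw [h] at this; linarith
  have e2 : (C.2 - A.2) * n = m * (B.2 - A.2) := by
    have : (C.2 - A.2) * n - m * (B.2 - A.2) = (B.1 - A.1) * D A B C := by
      rw [hn, hm]; unfold D; ring
    rw [h] at this; linarith
  set t := m / n with ht
  have f1 : C.1 = A.1 + t * (B.1 - A.1) := by
    rw [ht]; field_simp; linarith
  have f2 : C.2 = A.2 + t * (B.2 - A.2) := by
    rw [ht]; field_simp; linarith
  rcases lt_or_ge t 0 with ht0 | ht0
  · -- `A` lies between `C` and `B`
    apply hp.2.1 b c a hbc hab.ne hca.ne.symm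
    rw [segment_eq_image]
    have h1t : (0 : ℝ) < 1 - t := by linarith
    refine ⟨1 / (1 - t), ⟨by positivity, ?_⟩, ?_⟩
    · rw [div_le_one h1t]; linarith
    · ext
      · change (1 - 1 / (1 - t)) * B.1 + 1 / (1 - t) * C.1 = A.1
        rw [f1]; field_simp; ring
      · change (1 - 1 / (1 - t)) * B.2 + 1 / (1 - t) * C.2 = A.2
        rw [f2]; field_simp; ring
  · rcases le_or_gt t 1 with ht1 | ht1
    · apply hp.2.1 a b c hab hca.ne hbc.ne.symm
      rw [segment_eq_image]
      refine ⟨t, ⟨ht0, ht1⟩, ?_⟩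
      ext
      · change (1 - t) * A.1 + t * B.1 = C.1
        rw [f1]; ring
      · change (1 - t) * A.2 + t * B.2 = C.2
        rw [f2]; ring
    · apply hp.2.1 c a b hca hbc.ne hab.ne.symm
      rw [segment_eq_image]
      have ht' : (0 : ℝ) < t := by linarith
      refine ⟨1 - 1 / t, ⟨?_, ?_⟩, ?_⟩
      · rw [sub_nonneg, div_le_one ht']; linarith
      · have : 0 < 1 / t := by positivity
        linarith
      · ext
        · change (1 - (1 - 1 / t)) * C.1 + (1 - 1 / t) * A.1 = B.1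
          rw [f1]; field_simp; ring
        · change (1 - (1 - 1 / t)) * C.2 + (1 - 1 / t) * A.2 = B.2
          rw [f2]; field_simp; ring

/-- A triangle with a positively oriented list of its vertices. -/
theorem tri_orient (hp : Drawing G p) {T : Finset V} (hT : IsTri G T) :
    ∃ a b c, T = {a, b, c} ∧ G.Adj a b ∧ G.Adj b c ∧ G.Adj c a ∧ 0 < D (p a) (p b) (p c) := by
  obtain ⟨a, b, c, rfl, hab, hbc, hca⟩ := hT
  rcases lt_or_gt_of_ne (nondeg hp hab hbc hca) with h | h
  · refine ⟨b, a, c, ?_, hab.symm, hca.symm, hbc.symm, ?_⟩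
    · ext x; simp only [Finset.mem_insert, Finset.mem_singleton]; tauto
    · rw [D_swap]; linarith
  · exact ⟨a, b, c, rfl, hab, hbc, hca, h⟩

/-- `uv` is a side of `T` and `T` lies to the left of `u → v`. -/
def L (p : V → ℝ × ℝ) (T : Finset V) (u v : V) : Prop :=
  ∃ w, T = {u, v, w} ∧ 0 < D (p u) (p v) (p w)

theorem L_iff {a b c : V} (h : 0 < D (p a) (p b) (p c)) (u v : V) :
    L p {a, b, c} u v ↔ (u = a ∧ v = b) ∨ (u = b ∧ v = c) ∨ (u = c ∧ v = a) := by
  constructor
  · rintro ⟨w, hw, hD⟩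
    have hu : u ∈ ({a, b, c} : Finset V) := by rw [hw]; simp
    have hv : v ∈ ({a, b, c} : Finset V) := by rw [hw]; simp
    have hww : w ∈ ({a, b, c} : Finset V) := by rw [hw]; simp
    simp only [Finset.mem_insert, Finset.mem_singleton] at hu hv hww
    have r1 := D_rot (p a) (p b) (p c)
    have r2 := D_rot' (p a) (p b) (p c)
    have s1 := D_swap (p a) (p b) (p c)
    have s2 := D_swap' (p a) (p b) (p c)
    have s3 := D_rot (p c) (p b) (p a)
    have s4 := D_swap (p b) (p c) (p a)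
    rcases hu with rfl | rfl | rfl <;> rcases hv with rfl | rfl | rfl <;>
      rcases hww with rfl | rfl | rfl <;>
      first
        | (exfalso; rw [D_self] at hD; exact lt_irrefl _ hD)
        | (exfalso; rw [D_self'] at hD; exact lt_irrefl _ hD)
        | (exfalso; rw [D_self''] at hD; exact lt_irrefl _ hD)
        | (exfalso; linarith)
        | tauto
  · rintro (⟨rfl, rfl⟩ | ⟨rfl, rfl⟩ | ⟨rfl, rfl⟩)
    · exact ⟨c, rfl, h⟩
    · refine ⟨a, ?_, by rw [D_rot]; exact h⟩
      ext x; simp only [Finset.mem_insert, Finset.mem_singleton]; tauto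
    · refine ⟨b, ?_, by rw [D_rot']; exact h⟩
      ext x; simp only [Finset.mem_insert, Finset.mem_singleton]; tauto

theorem IsTri.adj {T : Finset V} (hT : IsTri G T) {x y : V} (hx : x ∈ T) (hy : y ∈ T)
    (hxy : x ≠ y) : G.Adj x y := by
  obtain ⟨a, b, c, rfl, hab, hbc, hca⟩ := hT
  simp only [Finset.mem_insert, Finset.mem_singleton] at hx hy
  rcases hx with rfl | rfl | rfl <;> rcases hy with rfl | rfl | rfl <;>
    first
      | exact absurd rfl hxy
      | assumption
      | exact hab.symm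
      | exact hbc.symm
      | exact hca.symm

theorem IsTri.card {T : Finset V} (hT : IsTri G T) : T.card = 3 := by
  obtain ⟨a, b, c, rfl, hab, hbc, hca⟩ := hT
  exact Finset.card_eq_three.2 ⟨a, b, c, hab.ne, hca.ne.symm, hbc.ne, rfl⟩

/-- The point `x` lies in the closed triangle `T`. -/
def InR (p : V → ℝ × ℝ) (T : Finset V) (x : ℝ × ℝ) : Prop :=
  ∀ u v, L p T u v → 0 ≤ D (p u) (p v) x

/-- The point `x` lies in the open triangle `T`. -/
def SInR (p : V → ℝ × ℝ) (T : Finset V) (x : ℝ × ℝ) : Prop :=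
  ∀ u v, L p T u v → 0 < D (p u) (p v) x

/-- The triangle `P` is contained in the triangle `Q`. -/
def Le (p : V → ℝ × ℝ) (P Q : Finset V) : Prop := ∀ x ∈ P, InR p Q (p x)

theorem inR_iff {a b c : V} (h : 0 < D (p a) (p b) (p c)) (x : ℝ × ℝ) :
    InR p {a, b, c} x ↔ 0 ≤ D (p a) (p b) x ∧ 0 ≤ D (p b) (p c) x ∧ 0 ≤ D (p c) (p a) x := by
  constructor
  · intro hx
    exact ⟨hx a b ((L_iff h _ _).2 (Or.inl ⟨rfl, rfl⟩)),
      hx b c ((L_iff h _ _).2 (Or.inr (Or.inl ⟨rfl, rfl⟩))),
      hx c a ((L_iff h _ _).2 (Or.inr (Or.inr ⟨rfl, rfl⟩)))⟩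
  · rintro ⟨h1, h2, h3⟩ u v huv
    rcases (L_iff h _ _).1 huv with ⟨rfl, rfl⟩ | ⟨rfl, rfl⟩ | ⟨rfl, rfl⟩ <;> assumption

theorem sInR_iff {a b c : V} (h : 0 < D (p a) (p b) (p c)) (x : ℝ × ℝ) :
    SInR p {a, b, c} x ↔ 0 < D (p a) (p b) x ∧ 0 < D (p b) (p c) x ∧ 0 < D (p c) (p a) x := by
  constructor
  · intro hx
    exact ⟨hx a b ((L_iff h _ _).2 (Or.inl ⟨rfl, rfl⟩)),
      hx b c ((L_iff h _ _).2 (Or.inr (Or.inl ⟨rfl, rfl⟩))),
      hx c a ((L_iff h _ _).2 (Or.inr (Or.inr ⟨rfl, rfl⟩)))⟩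
  · rintro ⟨h1, h2, h3⟩ u v huv
    rcases (L_iff h _ _).1 huv with ⟨rfl, rfl⟩ | ⟨rfl, rfl⟩ | ⟨rfl, rfl⟩ <;> assumption

theorem L.pos {T : Finset V} {u v : V} (h : L p T u v) :
    ∃ w, T = {u, v, w} ∧ 0 < D (p u) (p v) (p w) := h

theorem inR_self (hp : Drawing G p) {T : Finset V} (hT : IsTri G T) {x : V} (hx : x ∈ T) :
    InR p T (p x) := by
  obtain ⟨a, b, c, rfl, -, -, -, h⟩ := tri_orient hp hT
  rw [inR_iff h]
  simp only [Finset.mem_insert, Finset.mem_singleton] at hx
  rcases hx with rfl | rfl | rfl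
  · rw [D_self'', D_rot, D_self']; exact ⟨le_rfl, h.le, le_rfl⟩
  · rw [D_self', D_self'', D_rot']; exact ⟨le_rfl, le_rfl, h.le⟩
  · rw [D_self', D_self'']; exact ⟨h.le, le_rfl, le_rfl⟩

theorem le_refl' (hp : Drawing G p) {T : Finset V} (hT : IsTri G T) : Le p T T :=
  fun _ hx => inR_self hp hT hx

theorem inR_of_le (hp : Drawing G p) {P Q : Finset V} (hP : IsTri G P) (hPQ : Le p P Q)
    {x : ℝ × ℝ} (hx : InR p P x) : InR p Q x := by
  obtain ⟨a, b, c, rfl, -, -, -, h⟩ := tri_orient hp hP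
  rw [inR_iff h] at hx
  intro u v huv
  have h1 := D_bary (p a) (p b) (p c) x (p u) (p v)
  have ha := hPQ a (by simp) u v huv
  have hb := hPQ b (by simp) u v huv
  have hc := hPQ c (by simp) u v huv
  obtain ⟨hx1, hx2, hx3⟩ := hx
  have h2 : 0 ≤ D (p a) (p b) (p c) * D (p u) (p v) x := by
    rw [h1]; positivity
  exact nonneg_of_mul_nonneg_right h2 h

theorem le_trans' (hp : Drawing G p) {P Q R : Finset V} (hQ : IsTri G Q) (hPQ : Le p P Q)
    (hQR : Le p Q R) : Le p P R :=
  fun x hx => inR_of_le hp hQ hQR (hPQ x hx)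

/-- A vertex in a closed triangle is a corner or lies in the open triangle. -/
theorem sInR_of_inR (hp : Drawing G p) {T : Finset V} (hT : IsTri G T) {x : V}
    (hx : InR p T (p x)) (hxT : x ∉ T) : SInR p T (p x) := by
  obtain ⟨a, b, c, rfl, hab, hbc, hca, h⟩ := tri_orient hp hT
  rw [inR_iff h] at hx
  rw [sInR_iff h]
  simp only [Finset.mem_insert, Finset.mem_singleton, not_or] at hxT
  obtain ⟨ha, hb, hc⟩ := hxT
  obtain ⟨h1, h2, h3⟩ := hx
  refine ⟨lt_of_le_of_ne h1 ?_, lt_of_le_of_ne h2 ?_, lt_of_le_of_ne h3 ?_⟩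
  · intro h'
    exact hp.2.1 a b x hab ha hb (mem_side h h'.symm h2 h3)
  · intro h'
    exact hp.2.1 b c x hbc hb hc (mem_side (by rw [D_rot]; exact h) h'.symm h3 h1)
  · intro h'
    exact hp.2.1 c a x hca hc ha (mem_side (by rw [D_rot']; exact h) h'.symm h1 h2)

/-- Leaving a triangle of `G` along a segment, one meets a side. -/
theorem exit_tri (hp : Drawing G p) {T : Finset V} (hT : IsTri G T) {y z : ℝ × ℝ}
    (hy : SInR p T y) (hz : ¬ InR p T z) :
    ∃ t : ℝ, 0 < t ∧ t < 1 ∧ ∃ a ∈ T, ∃ b ∈ T, G.Adj a b ∧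
      ((1 - t) • y + t • z) ∈ segment ℝ (p a) (p b) := by
  obtain ⟨a, b, c, rfl, hab, hbc, hca, h⟩ := tri_orient hp hT
  rw [sInR_iff h] at hy
  rw [inR_iff h] at hz
  have hz' : D (p a) (p b) z < 0 ∨ D (p b) (p c) z < 0 ∨ D (p c) (p a) z < 0 := by
    by_contra hcon
    simp only [not_or, not_lt] at hcon
    exact hz hcon
  obtain ⟨t, ht0, ht1, h1 | h1 | h1⟩ := exit h hy.1 hy.2.1 hy.2.2 hz'
  · exact ⟨t, ht0, ht1, a, by simp, b, by simp, hab, h1⟩
  · exact ⟨t, ht0, ht1, b, by simp, c, by simp, hbc, h1⟩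
  · exact ⟨t, ht0, ht1, c, by simp, a, by simp, hca, h1⟩

/-- A side of a triangle has no point in the open triangle. -/
theorem side_not_sInR (hp : Drawing G p) {T : Finset V} (hT : IsTri G T) {a b : V} (ha : a ∈ T)
    (hb : b ∈ T) (hab : a ≠ b) {y : ℝ × ℝ} (hy : y ∈ segment ℝ (p a) (p b)) : ¬ SInR p T y := by
  intro hs
  obtain ⟨x, y', z, rfl, -, -, -, h⟩ := tri_orient hp hT
  rw [sInR_iff h] at hs
  obtain ⟨h1, h2, h3⟩ := hs
  have e1 := D_on_seg hy
  have e2 := D_on_seg (segment_symm ℝ (p a) (p b) ▸ hy)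
  simp only [Finset.mem_insert, Finset.mem_singleton] at ha hb
  rcases ha with rfl | rfl | rfl <;> rcases hb with rfl | rfl | rfl <;>
    first
      | exact absurd rfl hab
      | linarith

/-- A neighbour of a vertex in the open triangle lies in the closed triangle. -/
theorem inR_of_adj (hp : Drawing G p) {T : Finset V} (hT : IsTri G T) {u w : V}
    (hu : SInR p T (p u)) (huw : G.Adj u w) : InR p T (p w) := by
  by_contra hw
  obtain ⟨t, ht0, ht1, a, ha, b, hb, hab, hz⟩ := exit_tri hp hT hu hw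
  have hzs : ((1 - t) • p u + t • p w) ∈ segment ℝ (p u) (p w) := by
    rw [segment_eq_image]; exact ⟨t, ⟨ht0.le, ht1.le⟩, rfl⟩
  have huT : u ∉ T := by
    intro huT
    have hne : ∃ v ∈ T, u ≠ v := by
      by_cases h : u = a
      · exact ⟨b, hb, by rw [h]; exact hab.ne⟩
      · exact ⟨a, ha, h⟩
    obtain ⟨v, hv, huv⟩ := hne
    exact side_not_sInR hp hT huT hv huv (left_mem_segment ℝ _ _) hu
  have hne : s(u, w) ≠ s(a, b) := by
    intro h
    rw [Sym2.eq_iff] at h
    rcases h with ⟨h, -⟩ | ⟨h, -⟩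
    · exact huT (h ▸ ha)
    · exact huT (h ▸ hb)
  obtain ⟨y0, hy1, hy2, -⟩ := hp.2.2 u w a b huw hab hne _ hzs hz
  have hy0T : y0 ∈ T := by
    rcases hy2 with rfl | rfl <;> assumption
  rcases hy1 with rfl | rfl
  · exact huT hy0T
  · exact hw (inR_self hp hT hy0T)

/-- If an edge has a point in the open triangle, its ends lie in the closed triangle. -/
theorem inR_of_seg (hp : Drawing G p) {T : Finset V} (hT : IsTri G T) {q r : V} (hqr : G.Adj q r)
    {y : ℝ × ℝ} (hy : y ∈ segment ℝ (p q) (p r)) (hys : SInR p T y) : InR p T (p q) := by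
  by_contra hq
  obtain ⟨t, ht0, ht1, a, ha, b, hb, hab, hz⟩ := exit_tri hp hT hys hq
  have hzs : ((1 - t) • y + t • p q) ∈ segment ℝ (p q) (p r) := by
    have hconv := convex_segment (𝕜 := ℝ) (p q) (p r)
    exact hconv hy (left_mem_segment ℝ _ _) (by linarith) ht0.le (by ring)
  have hne : s(q, r) ≠ s(a, b) := by
    intro h
    rw [Sym2.eq_iff] at h
    rcases h with ⟨h1, h2⟩ | ⟨h1, h2⟩
    · exact side_not_sInR hp hT ha hb hab.ne (by rw [← h1, ← h2]; exact hy) hys
    · exact side_not_sInR hp hT hb ha hab.ne.symm (by rw [← h1, ← h2]; exact hy) hys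
  obtain ⟨y0, hy1, hy2, hy3⟩ := hp.2.2 q r a b hqr hab hne _ hzs hz
  have hy0T : y0 ∈ T := by
    rcases hy2 with rfl | rfl <;> assumption
  rcases hy1 with rfl | rfl
  · exact hq (inR_self hp hT hy0T)
  · -- the segment would be degenerate
    rw [segment_eq_image] at hy
    obtain ⟨s, ⟨hs0, hs1⟩, rfl⟩ := hy
    simp only at hy3
    apply hqr.ne
    apply hp.1
    have hpos : 0 < 1 - (1 - t) * s := by nlinarith
    have e1 := congrArg Prod.fst hy3
    have e2 := congrArg Prod.snd hy3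
    simp only [Prod.fst_add, Prod.snd_add, Prod.smul_fst, Prod.smul_snd, smul_eq_mul] at e1 e2
    have f1 : (1 - (1 - t) * s) * ((p q).1 - (p y0).1) = 0 := by linarith
    have f2 : (1 - (1 - t) * s) * ((p q).2 - (p y0).2) = 0 := by linarith
    rcases mul_eq_zero.1 f1 with h | h
    · exact absurd h hpos.ne'
    · rcases mul_eq_zero.1 f2 with h' | h'
      · exact absurd h' hpos.ne'
      · exact Prod.ext (by linarith) (by linarith)

/-- Triangles with a common inner point are nested. -/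
theorem nested_of_point (hp : Drawing G p) {P Q : Finset V} (hP : IsTri G P) (hQ : IsTri G Q)
    {x : ℝ × ℝ} (hxP : SInR p P x) (hxQ : SInR p Q x) : Le p P Q ∨ Le p Q P := by
  by_contra hcon
  rw [not_or] at hcon
  obtain ⟨hPQ, hQP⟩ := hcon
  unfold Le at hPQ
  push Not at hPQ
  obtain ⟨p1, hp1, hp1Q⟩ := hPQ
  obtain ⟨t, ht0, ht1, q1, hq1, q2, hq2, hq, hy⟩ := exit_tri hp hQ hxQ hp1Q
  have hys : SInR p P ((1 - t) • x + t • p p1) := by
    intro u v huv
    rw [D_comb]
    have h1 := hxP u v huv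
    have h2 := inR_self hp hP hp1 u v huv
    have : 0 < 1 - t := by linarith
    positivity
  have h1 := inR_of_seg hp hP hq hy hys
  have h2 := inR_of_seg hp hP hq.symm (segment_symm ℝ (p q1) (p q2) ▸ hy) hys
  apply hQP
  by_cases h3 : q1 ∈ P
  · by_cases h4 : q2 ∈ P
    · exact absurd hys (side_not_sInR hp hP h3 h4 hq.ne hy)
    · have h5 := sInR_of_inR hp hP h2 h4
      intro z hz
      by_cases hzq : z = q2
      · rw [hzq]; exact h2
      · exact inR_of_adj hp hP h5 (hQ.adj hq2 hz (Ne.symm hzq))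
  · have h5 := sInR_of_inR hp hP h1 h3
    intro z hz
    by_cases hzq : z = q1
    · rw [hzq]; exact h1
    · exact inR_of_adj hp hP h5 (hQ.adj hq1 hz (Ne.symm hzq))

/-- If all vertices of a nondegenerate triangle lie on a line, contradiction. -/
theorem line_absurd {a b c u v w : ℝ × ℝ} (h : 0 < D a b c) (h' : 0 < D u v w)
    (ha : D u v a = 0) (hb : D u v b = 0) (hc : D u v c = 0) : False := by
  have h1 := D_bary a b c w u v
  rw [ha, hb, hc] at h1
  have : 0 < D a b c * D u v w := mul_pos h h'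
  linarith

/-- Triangles that contain a common triangle are nested. -/
theorem nested_of_le (hp : Drawing G p) {P Q R : Finset V} (hP : IsTri G P) (hQ : IsTri G Q)
    (hR : IsTri G R) (hRP : Le p R P) (hRQ : Le p R Q) : Le p P Q ∨ Le p Q P := by
  obtain ⟨a, b, c, hRe, -, -, -, h⟩ := tri_orient hp hR
  have key : ∀ T : Finset V, Le p R T →
      SInR p T ((1 - (1 : ℝ) / 3) • ((1 - (1 : ℝ) / 2) • p a + ((1 : ℝ) / 2) • p b) +
        ((1 : ℝ) / 3) • p c) := by
    intro T hRT u v huv
    have ha := hRT a (by rw [hRe]; simp) u v huv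
    have hb := hRT b (by rw [hRe]; simp) u v huv
    have hc := hRT c (by rw [hRe]; simp) u v huv
    rw [D_comb, D_comb]
    by_contra hcon
    obtain ⟨w, -, hw⟩ := huv
    apply line_absurd h hw <;> linarith
  exact nested_of_point hp hP hQ (key P hRP) (key Q hRQ)

/-- Triangles with a common side and on the same side of it are nested. -/
theorem nested_of_side (hp : Drawing G p) {P Q : Finset V} (hP : IsTri G P) (hQ : IsTri G Q)
    {u v : V} (huP : L p P u v) (huQ : L p Q u v) : Le p P Q ∨ Le p Q P := by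
  obtain ⟨w, rfl, hw⟩ := huP
  obtain ⟨z, rfl, hz⟩ := huQ
  set A := D (p u) (p v) (p w)
  set A' := D (p u) (p v) (p z)
  set B := D (p v) (p z) (p w)
  set C := D (p z) (p u) (p w)
  set ε := A' / (4 * (A' + (|B| + |C|))) with hε
  have hBn := abs_nonneg B
  have hCn := abs_nonneg C
  have hden : 0 < 4 * (A' + (|B| + |C|)) := by positivity
  have hε0 : 0 < ε := by positivity
  have hεe : ε * (4 * (A' + (|B| + |C|))) = A' := by rw [hε]; field_simp
  have hε1 : ε < 1 := by
    rw [hε, div_lt_one hden]; linarith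
  set x : ℝ × ℝ := (1 - ε) • ((1 - (1 : ℝ) / 2) • p u + ((1 : ℝ) / 2) • p v) + ε • p w with hx
  have h1 : 0 < 1 - ε := by linarith
  apply nested_of_point hp hP hQ (x := x)
  · rw [sInR_iff hw, hx]
    simp only [D_comb, D_self', D_self'']
    have e1 : D (p v) (p w) (p u) = A := D_rot _ _ _
    have e2 : D (p w) (p u) (p v) = A := D_rot' _ _ _
    rw [e1, e2]
    refine ⟨?_, ?_, ?_⟩
    · have := mul_pos hε0 hw
      linarith
    · have := mul_pos h1 hw
      linarith
    · have := mul_pos h1 hw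
      linarith
  · rw [sInR_iff hz, hx]
    simp only [D_comb, D_self', D_self'']
    have e1 : D (p v) (p z) (p u) = A' := D_rot _ _ _
    have e2 : D (p z) (p u) (p v) = A' := D_rot' _ _ _
    rw [e1, e2]
    have hB : -(ε * |B|) ≤ ε * B := by
      rw [← mul_neg]; exact mul_le_mul_of_nonneg_left (neg_abs_le B) hε0.le
    have hC : -(ε * |C|) ≤ ε * C := by
      rw [← mul_neg]; exact mul_le_mul_of_nonneg_left (neg_abs_le C) hε0.le
    have hb1 := mul_nonneg hε0.le hBn
    have hc1 := mul_nonneg hε0.le hCn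
    have ha1 := mul_pos hε0 hz
    refine ⟨?_, ?_, ?_⟩
    · have := mul_pos hε0 hw
      linarith
    · nlinarith
    · nlinarith

/-- Containment is antisymmetric. -/
theorem le_antisymm' (hp : Drawing G p) {P Q : Finset V} (hP : IsTri G P) (hQ : IsTri G Q)
    (h1 : Le p P Q) (h2 : Le p Q P) : P = Q := by
  apply Finset.eq_of_subset_of_card_le
  · intro x hx
    by_contra hxQ
    have hs := sInR_of_inR hp hQ (h1 x hx) hxQ
    -- an oriented side of `P` at `x`
    obtain ⟨y, w, hPe, hD⟩ : ∃ y w, P = {x, y, w} ∧ 0 < D (p x) (p y) (p w) := by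
      obtain ⟨a, b, c, rfl, -, -, -, h⟩ := tri_orient hp hP
      simp only [Finset.mem_insert, Finset.mem_singleton] at hx
      rcases hx with rfl | rfl | rfl
      · exact ⟨b, c, rfl, h⟩
      · refine ⟨c, a, ?_, by rw [D_rot]; exact h⟩
        ext z; simp only [Finset.mem_insert, Finset.mem_singleton]; tauto
      · refine ⟨a, b, ?_, by rw [D_rot']; exact h⟩
        ext z; simp only [Finset.mem_insert, Finset.mem_singleton]; tauto
    have hL : L p P x y := ⟨w, hPe, hD⟩
    obtain ⟨a, b, c, rfl, -, -, -, h⟩ := tri_orient hp hQ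
    rw [sInR_iff h] at hs
    obtain ⟨s1, s2, s3⟩ := hs
    have ha := h2 a (by simp) x y hL
    have hb := h2 b (by simp) x y hL
    have hc := h2 c (by simp) x y hL
    have e := D_bary (p a) (p b) (p c) (p x) (p x) (p y)
    rw [D_self'', mul_zero] at e
    have t1 := mul_nonneg s2.le ha
    have t2 := mul_nonneg s3.le hb
    have t3 := mul_nonneg s1.le hc
    apply line_absurd h hD
    · have : D (p b) (p c) (p x) * D (p x) (p y) (p a) = 0 := by linarith
      exact (mul_eq_zero.1 this).resolve_left s2.ne'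
    · have : D (p c) (p a) (p x) * D (p x) (p y) (p b) = 0 := by linarith
      exact (mul_eq_zero.1 this).resolve_left s3.ne'
    · have : D (p a) (p b) (p x) * D (p x) (p y) (p c) = 0 := by linarith
      exact (mul_eq_zero.1 this).resolve_left s1.ne'
  · rw [hP.card, hQ.card]

/-- If `uv` is a side of a triangle in `P` but not a side of `P`, all triangles on `uv` lie in `P`. -/
theorem le_of_inner (hp : Drawing G p) {P R S : Finset V} (hP : IsTri G P) (hS : IsTri G S)
    (hRP : Le p R P) {u v : V} (huR : u ∈ R) (hvR : v ∈ R) (huS : u ∈ S) (hvS : v ∈ S)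
    (h : ¬ (u ∈ P ∧ v ∈ P)) : Le p S P := by
  have key : ∀ u, u ∈ R → u ∈ S → u ∉ P → Le p S P := by
    intro u huR huS huP z hz
    by_cases hzu : z = u
    · rw [hzu]; exact hRP u huR
    · exact inR_of_adj hp hP (sInR_of_inR hp hP (hRP u huR) huP) (hS.adj huS hz (Ne.symm hzu))
  by_cases hu : u ∈ P
  · exact key v hvR hvS fun hv => h ⟨hu, hv⟩
  · exact key u huR huS hu

/-- A triangle in `T` is not on the outer side of a side of `T`. -/
theorem not_L_of_le {P T : Finset V} (hPT : Le p P T) {u v : V} (h : L p T u v) :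
    ¬ L p P v u := by
  rintro ⟨w, hPe, hw⟩
  have := hPT w (by rw [hPe]; simp) u v h
  rw [D_swap] at hw
  linarith

/-- Two vertices of a triangle span an oriented side. -/
theorem L_or (hp : Drawing G p) {T : Finset V} (hT : IsTri G T) {u v : V} (hu : u ∈ T)
    (hv : v ∈ T) (huv : u ≠ v) : L p T u v ∨ L p T v u := by
  obtain ⟨a, b, c, rfl, -, -, -, h⟩ := tri_orient hp hT
  rw [L_iff h, L_iff h]
  simp only [Finset.mem_insert, Finset.mem_singleton] at hu hv
  rcases hu with rfl | rfl | rfl <;> rcases hv with rfl | rfl | rfl <;>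
    first
      | exact absurd rfl huv
      | tauto

theorem L.mem {T : Finset V} {u v : V} (h : L p T u v) : u ∈ T ∧ v ∈ T := by
  obtain ⟨w, rfl, -⟩ := h
  simp

theorem L.ne {T : Finset V} {u v : V} (h : L p T u v) : u ≠ v := by
  rintro rfl
  obtain ⟨w, -, h⟩ := h
  rw [D_self] at h
  exact lt_irrefl _ h

theorem L.not_symm {T : Finset V} (hp : Drawing G p) (hT : IsTri G T) {u v : V} (h : L p T u v) :
    ¬ L p T v u :=
  not_L_of_le (le_refl' hp hT) h

end

end Pool.Agent.V11119.TriDec
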