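import Pool.Agent.V11119.TriDec.Main

/-!
# Basic solutions are half-integral
-/

set_option autoImplicit false

namespace Pool.Agent.V11119.TriDec

open Finset
open scoped Classical

section

variable {V : Type} [Fintype V] {G : SimpleGraph V} {p : V → ℝ × ℝ}

/-- `x` is a nonnegative solution of the system that prescribes the sum at every pair of vertices. -/
def Solves (G : SimpleGraph V) (m : V → V → ℕ) (x : Finset V → ℚ) : Prop :=
  (∀ T, 0 ≤ x T) ∧ (∀ T, ¬ IsTri G T → x T = 0) ∧ ∀ u v, u ≠ v → FF x (Tris G) u v = m u v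

/-- The sum over the triangles on `uv` as a sum over all sets. -/
theorem FF_eq_sum {x : Finset V → ℚ} (hx : ∀ T, ¬ IsTri G T → x T = 0) (u v : V) :
    FF x (Tris G) u v = ∑ T, x T * chi T u v := by
  unfold FF Tris
  rw [filter_filter, sum_filter]
  apply sum_congr rfl
  intro T _
  unfold chi
  by_cases h1 : IsTri G T
  · by_cases h2 : u ∈ T ∧ v ∈ T
    · rw [if_pos ⟨h1, h2⟩, if_pos h2]; simp
    · rw [if_neg (fun h => h2 h.2), if_neg h2]; simp
  · rw [if_neg (fun h => h1 h.1), hx T h1, zero_mul]

/-- There is a solution with independent support. -/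
theorem exists_basic {m : V → V → ℕ} {x0 : Finset V → ℚ} (hx0 : Solves G m x0) :
    ∃ x, Solves G m x ∧ ∀ T, x T ≠ 0 → IsTri G T → ¬ Span {R | x R ≠ 0 ∧ R ≠ T} T := by
  -- a solution of smallest support
  have hne : ∃ n : ℕ, ∃ x, Solves G m x ∧ (univ.filter fun T => x T ≠ 0).card = n :=
    ⟨_, x0, hx0, rfl⟩
  obtain ⟨x, hx, hxn⟩ := Nat.find_spec hne
  have hmin := fun n => Nat.find_min hne (m := n)
  rw [← hxn] at hmin
  refine ⟨x, hx, ?_⟩
  intro T hT hTtri hspan
  obtain ⟨a, ha1, ha2⟩ := hspan
  let y : Finset V → ℚ := fun R => (if R = T then 1 else 0) - a R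
  have haT : a T = 0 := by
    by_contra h
    exact (ha1 T h).2 rfl
  have hyT : y T = 1 := by simp [y, haT]
  have hysupp : ∀ R, y R ≠ 0 → x R ≠ 0 := by
    intro R hR
    by_cases h : R = T
    · rw [h]; exact hT
    · have : a R ≠ 0 := by
        intro h'
        apply hR
        simp [y, h, h']
      exact (ha1 R this).1
  have hytri : ∀ R, ¬ IsTri G R → y R = 0 := by
    intro R hR
    by_contra h
    exact hysupp R h (hx.2.1 R hR)
  have hyFF : ∀ u v, u ≠ v → FF y (Tris G) u v = 0 := by
    intro u v huv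
    rw [FF_eq_sum hytri]
    have h1 := ha2 u v huv
    have h2 : ((chi T u v : ℤ) : ℚ) = ∑ R, (a R : ℚ) * (chi R u v : ℤ) := by
      rw [h1]; push_cast; rfl
    simp only [y, sub_mul, sum_sub_distrib, ite_mul, one_mul, zero_mul, sum_ite_eq', mem_univ,
      if_true]
    rw [h2, sub_self]
  -- the step length
  have hpos : (univ.filter fun R => 0 < y R).Nonempty := ⟨T, by simp [hyT]⟩
  obtain ⟨R0, hR0, hR0min⟩ := exists_min_image _ (fun R => x R / y R) hpos
  simp only [mem_filter, mem_univ, true_and] at hR0 hR0min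
  set t := x R0 / y R0 with ht
  have ht0 : 0 ≤ t := div_nonneg (hx.1 R0) hR0.le
  have hx' : Solves G m (fun R => x R - t * y R) := by
    refine ⟨?_, ?_, ?_⟩
    · intro R
      rcases le_or_gt (y R) 0 with h | h
      · have := hx.1 R
        nlinarith
      · have := hR0min R h
        rw [le_div_iff₀ h] at this
        linarith
    · intro R hR
      simp only
      rw [hx.2.1 R hR, hytri R hR, mul_zero, sub_zero]
    · intro u v huv
      have h1 : FF (fun R => x R - t * y R) (Tris G) u v =
          FF x (Tris G) u v - t * FF y (Tris G) u v := by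
        unfold FF
        rw [sum_sub_distrib, mul_sum]
      rw [h1, hyFF u v huv, mul_zero, sub_zero]
      exact hx.2.2 u v huv
  have hlt : (univ.filter fun R => x R - t * y R ≠ 0).card < (univ.filter fun R => x R ≠ 0).card := by
    apply card_lt_card
    refine ⟨?_, fun hsub => ?_⟩
    · intro R hR
      simp only [mem_filter, mem_univ, true_and] at hR ⊢
      intro h
      apply hR
      have : y R = 0 := by
        by_contra h'
        exact hysupp R h' h
      rw [h, this, mul_zero, sub_zero]
    · have h1 : R0 ∈ univ.filter fun R => x R ≠ 0 := by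
        simp only [mem_filter, mem_univ, true_and]
        exact hysupp R0 hR0.ne'
      have h2 := hsub h1
      simp only [mem_filter, mem_univ, true_and] at h2
      apply h2
      rw [ht, div_mul_cancel₀ _ hR0.ne', sub_self]
  exact hmin _ hlt ⟨_, hx', rfl⟩

/-- There is a half-integral solution. -/
theorem exists_half (hp : Drawing G p) {m : V → V → ℕ} {x0 : Finset V → ℚ}
    (hx0 : Solves G m x0) :
    ∃ k : Finset V → ℕ, (∀ T, ¬ IsTri G T → k T = 0) ∧
      ∀ u v, u ≠ v → ∑ T ∈ (Tris G).filter (fun T => u ∈ T ∧ v ∈ T), k T = 2 * m u v := by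
  obtain ⟨x, hx, hind⟩ := exists_basic hx0
  let f : Finset V → AddCircle (1 : ℚ) := fun T => (x T : AddCircle (1 : ℚ))
  have h2 := order_two (G := G) hp (S := {T | x T ≠ 0}) (f := f) (by
      intro R hR
      simp only [Set.mem_ofPred_eq, not_not] at hR
      simp only [f, hR]
      rfl) (by
      intro T hT hTtri
      exact hind T hT hTtri) (by
      intro u v huv
      have h1 : FF f (Tris G) u v = ((FF x (Tris G) u v : ℚ) : AddCircle (1 : ℚ)) := by
        unfold FF
        exact (map_sum (QuotientAddGroup.mk' (AddSubgroup.zmultiples (1 : ℚ))) _ _).symm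
      rw [h1, hx.2.2 u v huv]
      rw [AddCircle.coe_eq_zero_iff]
      exact ⟨m u v, by simp⟩)
  have h3 : ∀ R, ∃ n : ℕ, (n : ℚ) = 2 * x R := by
    intro R
    by_cases hR : IsTri G R
    · have h4 := h2 R hR
      have h5 : ((x R + x R : ℚ) : AddCircle (1 : ℚ)) = 0 := h4
      rw [AddCircle.coe_eq_zero_iff] at h5
      obtain ⟨n, hn⟩ := h5
      have h6 : (n : ℚ) = 2 * x R := by
        rw [zsmul_eq_mul, mul_one] at hn
        linarith
      have h7 : 0 ≤ n := by
        have := hx.1 R
        have h8 : (0 : ℚ) ≤ n := by rw [h6]; linarith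
        exact_mod_cast h8
      refine ⟨n.toNat, ?_⟩
      rw [← h6]
      exact_mod_cast Int.toNat_of_nonneg h7
    · exact ⟨0, by rw [hx.2.1 R hR]; simp⟩
  choose k hk using h3
  refine ⟨k, ?_, ?_⟩
  · intro T hT
    have := hk T
    rw [hx.2.1 T hT, mul_zero] at this
    exact_mod_cast this
  · intro u v huv
    have h4 := hx.2.2 u v huv
    unfold FF at h4
    have h5 : ((∑ T ∈ (Tris G).filter (fun T => u ∈ T ∧ v ∈ T), k T : ℕ) : ℚ) =
        ((2 * m u v : ℕ) : ℚ) := by
      push_cast
      rw [← h4, mul_sum]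
      exact sum_congr rfl fun T _ => hk T
    exact_mod_cast h5

end

end Pool.Agent.V11119.TriDec
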