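import Pool.Agent.V11119.TriDec.Comb

/-!
# The induction over the triangles of a drawing
-/

set_option autoImplicit false

namespace Pool.Agent.V11119.TriDec

open Finset
open scoped Classical

section

variable {V : Type} [Fintype V] {G : SimpleGraph V} {p : V → ℝ × ℝ}

/-- All triangles of the graph. -/
noncomputable def Tris (G : SimpleGraph V) : Finset (Finset V) := univ.filter fun T => IsTri G T

theorem mem_Tris {T : Finset V} : T ∈ Tris G ↔ IsTri G T := by simp [Tris]

/-- The triangles properly inside `T`. -/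
noncomputable def Below (G : SimpleGraph V) (p : V → ℝ × ℝ) (T : Finset V) : Finset (Finset V) :=
  univ.filter fun R => IsTri G R ∧ Le p R T ∧ R ≠ T

theorem mem_Below {T R : Finset V} : R ∈ Below G p T ↔ IsTri G R ∧ Le p R T ∧ R ≠ T := by
  simp [Below]

/-- The edge indicator. -/
noncomputable def chi (T : Finset V) (u v : V) : ℤ := if u ∈ T ∧ v ∈ T then 1 else 0

/-- The sum of `f` over the members of a family that contain `u` and `v`. -/
noncomputable def FF {A : Type} [AddCommGroup A] (f : Finset V → A) (DD : Finset (Finset V))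
    (u v : V) : A := ∑ R ∈ DD.filter (fun R => u ∈ R ∧ v ∈ R), f R

/-- The edge indicator of `T` is an integer combination of those of the members of `X`. -/
def Span (X : Set (Finset V)) (T : Finset V) : Prop :=
  ∃ a : Finset V → ℤ, (∀ R, a R ≠ 0 → R ∈ X) ∧
    ∀ u v, u ≠ v → chi T u v = ∑ R, a R * chi R u v

theorem Span.mono {X Y : Set (Finset V)} {T : Finset V} (h : Span X T) (hXY : X ⊆ Y) :
    Span Y T := by
  obtain ⟨a, h1, h2⟩ := h
  exact ⟨a, fun R hR => hXY (h1 R hR), h2⟩

theorem span_self {X : Set (Finset V)} {T : Finset V} (h : T ∈ X) : Span X T := by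
  refine ⟨fun R => if R = T then 1 else 0, ?_, ?_⟩
  · intro R hR
    by_contra hcon
    apply hR
    simp only [ite_eq_right_iff, one_ne_zero, imp_false]
    rintro rfl
    exact hcon h
  · intro u v _
    simp

/-- The claim of the induction. -/
def Claim {A : Type} [AddCommGroup A] (G : SimpleGraph V) (p : V → ℝ × ℝ) (S : Set (Finset V))
    (f : Finset V → A) (T : Finset V) : Prop :=
  (∀ u v, u ≠ v → ¬ (u ∈ T ∧ v ∈ T) → FF f (Below G p T) u v = 0) →
    ∃ c : A, (∀ u v, u ≠ v → u ∈ T → v ∈ T → FF f (Below G p T) u v = c) ∧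
      (c + c = 0 → ∀ R ∈ Below G p T, f R + f R = 0) ∧
      (c + c ≠ 0 → Span {R | R ∈ S ∧ R ∈ Below G p T} T)

/-- A counting measure for containment. -/
noncomputable def mu (G : SimpleGraph V) (p : V → ℝ × ℝ) (T : Finset V) : ℕ :=
  (univ.filter fun R => IsTri G R ∧ Le p R T).card

theorem mu_lt (hp : Drawing G p) {P Q : Finset V} (hP : IsTri G P) (hQ : IsTri G Q)
    (h : Le p P Q) (hne : P ≠ Q) : mu G p P < mu G p Q := by
  apply card_lt_card
  refine ⟨?_, fun hsub => ?_⟩
  · intro R hR
    simp only [mem_filter, mem_univ, true_and] at hR ⊢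
    exact ⟨hR.1, le_trans' hp hP hR.2 h⟩
  · have : Q ∈ univ.filter fun R => IsTri G R ∧ Le p R Q := by
      simp only [mem_filter, mem_univ, true_and]
      exact ⟨hQ, le_refl' hp hQ⟩
    have := hsub this
    simp only [mem_filter, mem_univ, true_and] at this
    exact hne (le_antisymm' hp hP hQ h this.2)

theorem core {A : Type} [AddCommGroup A] (hp : Drawing G p) {S : Set (Finset V)}
    {f : Finset V → A} (hfS : ∀ R, R ∉ S → f R = 0)
    (hind : ∀ T ∈ S, IsTri G T → ¬ Span {R | R ∈ S ∧ R ≠ T} T)
    {DD : Finset (Finset V)} (hDtri : ∀ P ∈ DD, IsTri G P)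
    (hdown : ∀ P ∈ DD, ∀ R, IsTri G R → Le p R P → R ∈ DD)
    (hIH : ∀ P ∈ DD, Claim G p S f P)
    (hE : ∀ P ∈ DD, ∀ u v, u ≠ v → ¬ (u ∈ P ∧ v ∈ P) →
      (∃ R, IsTri G R ∧ Le p R P ∧ u ∈ R ∧ v ∈ R) → FF f DD u v = 0) :
    ∃ (PP : Finset (Finset V)) (θ : Finset V → A), (∀ P ∈ PP, P ∈ DD) ∧
      (∀ u v, u ≠ v → FF f DD u v = AA p PP θ (u, v) + AA p PP θ (v, u)) ∧
      (∀ u v, u ≠ v → ∀ g : Finset V → ℤ, ∑ P ∈ PP, g P * chi P u v =
        ∑ P ∈ PP.filter (fun P => (u, v) ∈ sides p P), g P +
        ∑ P ∈ PP.filter (fun P => (v, u) ∈ sides p P), g P) ∧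
      (∀ P ∈ PP, ∀ Q ∈ PP, ∀ e, e ∈ sides p P → e ∈ sides p Q → P = Q) ∧
      (∀ P ∈ PP, θ P + θ P = 0 → ∀ R, IsTri G R → Le p R P → f R + f R = 0) ∧
      (∀ P ∈ PP, θ P + θ P ≠ 0 → Span {R | R ∈ S ∧ IsTri G R ∧ Le p R P} P) ∧
      (∀ R ∈ DD, ∃ P ∈ PP, Le p R P) := by
  set PP : Finset (Finset V) := DD.filter fun P => ∀ Q ∈ DD, Le p P Q → Q = P with hPP
  have hPD : ∀ P ∈ PP, P ∈ DD := fun P hP => (mem_filter.1 hP).1
  have hPtri : ∀ P ∈ PP, IsTri G P := fun P hP => hDtri P (hPD P hP)
  have hmax : ∀ P ∈ PP, ∀ Q ∈ DD, Le p P Q → Q = P := fun P hP => (mem_filter.1 hP).2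
  -- every triangle lies in a tile
  have hex : ∀ R ∈ DD, ∃ P ∈ PP, Le p R P := by
    intro R hR
    have hne : (DD.filter fun Q => Le p R Q).Nonempty :=
      ⟨R, mem_filter.2 ⟨hR, le_refl' hp (hDtri R hR)⟩⟩
    obtain ⟨P, hP, hPm⟩ := exists_max_image _ (mu G p) hne
    rw [mem_filter] at hP
    refine ⟨P, ?_, hP.2⟩
    rw [hPP, mem_filter]
    refine ⟨hP.1, fun Q hQ hPQ => ?_⟩
    by_contra hne'
    have h1 := mu_lt hp (hDtri P hP.1) (hDtri Q hQ) hPQ (Ne.symm hne')
    have h2 := hPm Q (mem_filter.2 ⟨hQ, le_trans' hp (hDtri P hP.1) hP.2 hPQ⟩)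
    omega
  have hnest : ∀ P ∈ PP, ∀ Q ∈ PP, (Le p P Q ∨ Le p Q P) → P = Q := by
    intro P hP Q hQ h
    rcases h with h | h
    · exact (hmax P hP Q (hPD Q hQ) h).symm
    · exact hmax Q hQ P (hPD P hP) h
  have huniq : ∀ R, IsTri G R → ∀ P ∈ PP, ∀ Q ∈ PP, Le p R P → Le p R Q → P = Q := by
    intro R hR P hP Q hQ h1 h2
    exact hnest P hP Q hQ (nested_of_le hp (hPtri P hP) (hPtri Q hQ) hR h1 h2)
  have hU : ∀ P ∈ PP, ∀ Q ∈ PP, ∀ e, e ∈ sides p P → e ∈ sides p Q → P = Q := by
    intro P hP Q hQ e h1 h2
    rw [mem_sides] at h1 h2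
    exact hnest P hP Q hQ (nested_of_side hp (hPtri P hP) (hPtri Q hQ) h1 h2)
  -- the equations inside the tiles
  have hin : ∀ P ∈ PP, ∀ u v, u ≠ v → ¬ (u ∈ P ∧ v ∈ P) → FF f (Below G p P) u v = 0 := by
    intro P hP u v huv hPuv
    by_cases hR : ∃ R, IsTri G R ∧ Le p R P ∧ u ∈ R ∧ v ∈ R
    · rw [← hE P (hPD P hP) u v huv hPuv hR]
      unfold FF
      apply sum_congr _ fun _ _ => rfl
      obtain ⟨R, hR1, hR2, hR3, hR4⟩ := hR
      ext R'
      simp only [mem_filter, mem_Below]
      constructor
      · rintro ⟨⟨h1, h2, h3⟩, h4⟩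
        exact ⟨hdown P (hPD P hP) R' h1 h2, h4⟩
      · rintro ⟨h1, h2, h3⟩
        refine ⟨⟨hDtri R' h1, le_of_inner hp (hPtri P hP) (hDtri R' h1) hR2 hR3 hR4 h2 h3 hPuv,
          ?_⟩, h2, h3⟩
        rintro rfl
        exact hPuv ⟨h2, h3⟩
    · unfold FF
      apply sum_eq_zero
      intro R hR'
      simp only [mem_filter, mem_Below] at hR'
      exact absurd ⟨R, hR'.1.1, hR'.1.2.1, hR'.2.1, hR'.2.2⟩ hR
  have hcl : ∀ P, ∃ c : A, P ∈ PP → (∀ u v, u ≠ v → u ∈ P → v ∈ P → FF f (Below G p P) u v = c) ∧
      (c + c = 0 → ∀ R ∈ Below G p P, f R + f R = 0) ∧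
      (c + c ≠ 0 → Span {R | R ∈ S ∧ R ∈ Below G p P} P) := by
    intro P
    by_cases hP : P ∈ PP
    · obtain ⟨c, hc⟩ := hIH P (hPD P hP) (hin P hP)
      exact ⟨c, fun _ => hc⟩
    · exact ⟨0, fun h => absurd h hP⟩
  choose c hc using hcl
  -- the sum over the triangles in a tile
  have htile : ∀ P ∈ PP, ∀ u v, u ≠ v →
      ∑ R ∈ (DD.filter (fun R => u ∈ R ∧ v ∈ R)).filter (fun R => Le p R P), f R =
        if u ∈ P ∧ v ∈ P then c P + f P else 0 := by
    intro P hP u v huv
    by_cases h : u ∈ P ∧ v ∈ P
    · rw [if_pos h]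
      have h1 : (DD.filter (fun R => u ∈ R ∧ v ∈ R)).filter (fun R => Le p R P) =
          insert P ((Below G p P).filter (fun R => u ∈ R ∧ v ∈ R)) := by
        ext R
        simp only [mem_filter, mem_insert, mem_Below]
        constructor
        · rintro ⟨⟨h1, h2⟩, h3⟩
          by_cases hRP : R = P
          · exact Or.inl hRP
          · exact Or.inr ⟨⟨hDtri R h1, h3, hRP⟩, h2⟩
        · rintro (rfl | ⟨⟨h1, h2, h3⟩, h4⟩)
          · exact ⟨⟨hPD R hP, h⟩, le_refl' hp (hPtri R hP)⟩
          · exact ⟨⟨hdown P (hPD P hP) R h1 h2, h4⟩, h2⟩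
      rw [h1, sum_insert, add_comm]
      · have := (hc P hP).1 u v huv h.1 h.2
        unfold FF at this
        rw [this]
      · simp only [mem_filter, mem_Below]
        rintro ⟨⟨-, -, h1⟩, -⟩
        exact h1 rfl
    · rw [if_neg h]
      have h1 : (DD.filter (fun R => u ∈ R ∧ v ∈ R)).filter (fun R => Le p R P) =
          ((Below G p P).filter (fun R => u ∈ R ∧ v ∈ R)) := by
        ext R
        simp only [mem_filter, mem_Below]
        constructor
        · rintro ⟨⟨h1, h2⟩, h3⟩
          refine ⟨⟨hDtri R h1, h3, ?_⟩, h2⟩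
          rintro rfl
          exact h h2
        · rintro ⟨⟨h1, h2, h3⟩, h4⟩
          exact ⟨⟨hdown P (hPD P hP) R h1 h2, h4⟩, h2⟩
      rw [h1]
      exact hin P hP u v huv h
  set θ : Finset V → A := fun P => c P + f P with hθ
  -- splitting into the two sides
  have hsplit : ∀ {B : Type} [AddCommMonoid B] (g : Finset V → B) (u v : V), u ≠ v →
      ∑ P ∈ PP.filter (fun P => u ∈ P ∧ v ∈ P), g P =
        ∑ P ∈ PP.filter (fun P => (u, v) ∈ sides p P), g P +
        ∑ P ∈ PP.filter (fun P => (v, u) ∈ sides p P), g P := by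
    intro B _ g u v huv
    rw [← sum_union]
    · apply sum_congr _ fun _ _ => rfl
      ext P
      simp only [mem_union, mem_filter, mem_sides]
      constructor
      · rintro ⟨hP, hu, hv⟩
        rcases L_or hp (hPtri P hP) hu hv huv with h | h
        · exact Or.inl ⟨hP, h⟩
        · exact Or.inr ⟨hP, h⟩
      · rintro (⟨hP, h⟩ | ⟨hP, h⟩)
        · exact ⟨hP, h.mem⟩
        · exact ⟨hP, h.mem.symm⟩
    · rw [disjoint_filter]
      intro P hP h1 h2
      rw [mem_sides] at h1 h2
      exact L.not_symm hp (hPtri P hP) h1 h2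
  refine ⟨PP, θ, hPD, ?_, ?_, hU, ?_, ?_, hex⟩
  · intro u v huv
    -- sort the triangles by their tiles
    have h1 : ∀ R, ∃ P, R ∈ DD → P ∈ PP ∧ Le p R P := by
      intro R
      by_cases hR : R ∈ DD
      · obtain ⟨P, hP⟩ := hex R hR
        exact ⟨P, fun _ => hP⟩
      · exact ⟨∅, fun h => absurd h hR⟩
    choose tl htl using h1
    have h2 : FF f DD u v = ∑ P ∈ PP,
        ∑ R ∈ (DD.filter (fun R => u ∈ R ∧ v ∈ R)).filter (fun R => tl R = P), f R := by
      unfold FF
      rw [sum_fiberwise_of_maps_to]
      intro R hR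
      exact (htl R (mem_filter.1 hR).1).1
    rw [h2]
    have h3 : ∀ P ∈ PP,
        ∑ R ∈ (DD.filter (fun R => u ∈ R ∧ v ∈ R)).filter (fun R => tl R = P), f R =
          if u ∈ P ∧ v ∈ P then θ P else 0 := by
      intro P hP
      rw [← htile P hP u v huv]
      apply sum_congr _ fun _ _ => rfl
      ext R
      simp only [mem_filter]
      constructor
      · rintro ⟨⟨h1, h2⟩, rfl⟩
        exact ⟨⟨h1, h2⟩, (htl R h1).2⟩
      · rintro ⟨⟨h1, h2⟩, h3⟩
        refine ⟨⟨h1, h2⟩, ?_⟩
        exact huniq R (hDtri R h1) _ (htl R h1).1 P hP (htl R h1).2 h3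
    rw [sum_congr rfl h3, ← sum_filter, hsplit θ u v huv]
    rfl
  · intro u v huv g
    rw [← hsplit g u v huv, sum_filter (s := PP) (fun P => u ∈ P ∧ v ∈ P) g]
    apply sum_congr rfl
    intro P _
    unfold chi
    split_ifs <;> simp
  · intro P hP h0 R hR hRP
    obtain ⟨-, hc2, hc3⟩ := hc P hP
    have hcc : c P + c P = 0 := by
      by_contra hne
      have hsp := hc3 hne
      have hPS : P ∉ S := by
        intro hPS
        apply hind P hPS (hPtri P hP)
        apply hsp.mono
        rintro R ⟨h1, h2⟩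
        exact ⟨h1, (mem_Below.1 h2).2.2⟩
      have hf0 := hfS P hPS
      apply hne
      simp only [hθ, hf0, add_zero] at h0
      exact h0
    by_cases hRe : R = P
    · rw [hRe]
      have : θ P + θ P = (c P + c P) + (f P + f P) := by
        simp only [hθ]; abel
      rw [h0, hcc, zero_add] at this
      exact this.symm
    · exact hc2 hcc R (mem_Below.2 ⟨hR, hRP, hRe⟩)
  · intro P hP hne
    by_cases hPS : P ∈ S
    · exact span_self ⟨hPS, hPtri P hP, le_refl' hp (hPtri P hP)⟩
    · obtain ⟨-, hc2, hc3⟩ := hc P hP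
      have hf0 := hfS P hPS
      simp only [hθ, hf0, add_zero] at hne
      apply (hc3 hne).mono
      rintro R ⟨h1, h2⟩
      rw [mem_Below] at h2
      exact ⟨h1, h2.1, h2.2.1⟩

theorem claim {A : Type} [AddCommGroup A] (hp : Drawing G p) {S : Set (Finset V)}
    {f : Finset V → A} (hfS : ∀ R, R ∉ S → f R = 0)
    (hind : ∀ T ∈ S, IsTri G T → ¬ Span {R | R ∈ S ∧ R ≠ T} T) :
    ∀ (n : ℕ) (T : Finset V), IsTri G T → mu G p T = n → Claim G p S f T := by
  intro n
  induction n using Nat.strong_induction_on with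
  | _ n ih =>
    intro T hT hn hyp
    have hDtri : ∀ P ∈ Below G p T, IsTri G P := fun P hP => (mem_Below.1 hP).1
    have hdown : ∀ P ∈ Below G p T, ∀ R, IsTri G R → Le p R P → R ∈ Below G p T := by
      intro P hP R hR hRP
      rw [mem_Below] at hP ⊢
      refine ⟨hR, le_trans' hp hP.1 hRP hP.2.1, ?_⟩
      rintro rfl
      exact hP.2.2 (le_antisymm' hp hP.1 hR hP.2.1 hRP)
    have hIH : ∀ P ∈ Below G p T, Claim G p S f P := by
      intro P hP
      rw [mem_Below] at hP
      exact ih (mu G p P) (by rw [← hn]; exact mu_lt hp hP.1 hT hP.2.1 hP.2.2) P hP.1 rfl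
    have hE : ∀ P ∈ Below G p T, ∀ u v, u ≠ v → ¬ (u ∈ P ∧ v ∈ P) →
        (∃ R, IsTri G R ∧ Le p R P ∧ u ∈ R ∧ v ∈ R) → FF f (Below G p T) u v = 0 := by
      rintro P hP u v huv hPuv ⟨R, hR1, hR2, hR3, hR4⟩
      apply hyp u v huv
      rintro ⟨hu, hv⟩
      rw [mem_Below] at hP
      have := le_of_inner hp hP.1 hT hR2 hR3 hR4 hu hv hPuv
      exact hP.2.2 (le_antisymm' hp hP.1 hT hP.2.1 this)
    obtain ⟨PP, θ, h1, h2, h2', hU, h3, h4, h5⟩ := core hp hfS hind hDtri hdown hIH hE
    have hPtri : ∀ P ∈ PP, IsTri G P := fun P hP => hDtri P (h1 P hP)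
    -- the boundary
    have hB : ∀ e ∈ sides p T, AA p PP θ e.swap = 0 := by
      intro e he
      unfold AA
      apply sum_eq_zero
      intro P hP
      rw [mem_filter, mem_sides] at hP
      rw [mem_sides] at he
      exact absurd hP.2 (not_L_of_le (mem_Below.1 (h1 P hP.1)).2.1 he)
    have hin : ∀ e, e ∉ sides p T → e.swap ∉ sides p T →
        AA p PP θ e + AA p PP θ e.swap = 0 := by
      rintro ⟨u, v⟩ he he'
      by_cases huv : u = v
      · subst huv
        have : AA p PP θ (u, u) = 0 := by
          unfold AA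
          apply sum_eq_zero
          intro P hP
          rw [mem_filter, mem_sides] at hP
          exact absurd rfl hP.2.ne
        change AA p PP θ (u, u) + AA p PP θ (u, u) = 0
        rw [this, add_zero]
      · have := h2 u v huv
        change AA p PP θ (u, v) + AA p PP θ (v, u) = 0
        rw [← this]
        apply hyp u v huv
        rintro ⟨hu, hv⟩
        rw [mem_sides] at he he'
        rcases L_or hp hT hu hv huv with h | h
        · exact he h
        · exact he' h
    -- the common value
    have hval : ∀ c : A, (∀ e ∈ sides p T, AA p PP θ e = c) →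
        ∀ u v, u ≠ v → u ∈ T → v ∈ T → FF f (Below G p T) u v = c := by
      intro c hc u v huv hu hv
      rw [h2 u v huv]
      rcases L_or hp hT hu hv huv with h | h
      · have e1 := hc (u, v) (mem_sides.2 h)
        have e2 := hB (u, v) (mem_sides.2 h)
        change AA p PP θ (v, u) = 0 at e2
        rw [e1, e2, add_zero]
      · have e1 := hc (v, u) (mem_sides.2 h)
        have e2 := hB (v, u) (mem_sides.2 h)
        change AA p PP θ (u, v) = 0 at e2
        rw [e1, e2, zero_add]
    have htwo : (∀ P ∈ PP, θ P + θ P = 0) → ∀ R ∈ Below G p T, f R + f R = 0 := by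
      intro h R hR
      obtain ⟨P, hP, hRP⟩ := h5 R hR
      exact h3 P hP (h P hP) R (mem_Below.1 hR).1 hRP
    by_cases hz : ∀ P ∈ PP, θ P = 0
    · refine ⟨0, hval 0 ?_, fun _ => htwo fun P hP => by rw [hz P hP, add_zero],
        fun h => absurd (add_zero (0 : A)) h⟩
      intro e _
      unfold AA
      apply sum_eq_zero
      intro P hP
      exact hz P (mem_filter.1 hP).1
    · push Not at hz
      obtain ⟨P0, hP0, hne0⟩ := hz
      have hbd := tiles_boundary hp hPtri hU hT hB hin hP0 hne0
      set θ0 := θ P0 with hθ0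
      have hall : ∀ Q ∈ PP, θ Q = 0 ∨ θ Q = θ0 ∨ θ Q = -θ0 := by
        intro Q hQ
        by_cases hQ0 : θ Q = 0
        · exact Or.inl hQ0
        · right
          have hbd' := tiles_boundary hp hPtri hU hT hB hin hQ hQ0
          obtain ⟨a, b, c, rfl, -, -, -, hD⟩ := tri_orient hp hT
          have m1 : (a, b) ∈ sides p {a, b, c} := by rw [sides_eq hD]; simp
          rcases hbd _ m1 with e1 | e1 <;> rcases hbd' _ m1 with e2 | e2
          · left; rw [← e2, e1]
          · right; rw [← e1, e2, neg_neg]
          · right; rw [← e2, e1]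
          · left
            rw [e1] at e2
            exact (neg_injective e2).symm
      by_cases h2θ : θ0 + θ0 = 0
      · have hneg : -θ0 = θ0 := neg_eq_of_add_eq_zero_left h2θ
        refine ⟨θ0, hval θ0 ?_, fun _ => htwo ?_, fun h => absurd h2θ h⟩
        · intro e he
          rcases hbd e he with h | h
          · exact h
          · rw [h, hneg]
        · intro P hP
          rcases hall P hP with h | h | h
          · rw [h, add_zero]
          · rw [h, h2θ]
          · rw [h, hneg, h2θ]
      · have hnen : θ0 ≠ -θ0 := by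
          intro h
          apply h2θ
          nth_rewrite 1 [h]
          rw [neg_add_cancel]
        let h : A → ℤ := fun x => if x = θ0 then 1 else if x = -θ0 then -1 else 0
        have hh1 : h θ0 = 1 := if_pos rfl
        have hh2 : h (-θ0) = -1 := by
          change (if -θ0 = θ0 then (1 : ℤ) else if -θ0 = -θ0 then -1 else 0) = -1
          rw [if_neg hnen.symm, if_pos rfl]
        have hh3 : ∀ x, x ≠ θ0 → x ≠ -θ0 → h x = 0 := by
          intro x h1 h2
          simp only [h]
          rw [if_neg h1, if_neg h2]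
        have hodd : ∀ x, h (-x) = - h x := by
          intro x
          by_cases e1 : x = θ0
          · rw [e1, hh2, hh1]
          · by_cases e2 : x = -θ0
            · rw [e2, neg_neg, hh2, hh1]; norm_num
            · rw [hh3 x e1 e2, hh3 (-x), neg_zero]
              · intro e; exact e2 (by rw [← e, neg_neg])
              · intro e; exact e1 (neg_injective e)
        have h0 : h 0 = 0 := by
          have := hodd 0
          rw [neg_zero] at this
          omega
        obtain ⟨s, hs, hsv⟩ := tiles_sign hp hPtri hU hT hB hin hodd (by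
          intro e he
          rcases hbd e he with e1 | e1
          · left; rw [e1, hh1]
          · right; rw [e1, hh2])
        have hcommon : ∃ c : A, ∀ e ∈ sides p T, AA p PP θ e = c := by
          rcases hs with hs | hs
          · refine ⟨θ0, fun e he => ?_⟩
            rcases hbd e he with e1 | e1
            · exact e1
            · exfalso
              have := hsv e he
              rw [e1, hh2, hs] at this
              norm_num at this
          · refine ⟨-θ0, fun e he => ?_⟩
            rcases hbd e he with e1 | e1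
            · exfalso
              have := hsv e he
              rw [e1, hh1, hs] at this
              norm_num at this
            · exact e1
        obtain ⟨c, hcv⟩ := hcommon
        have hspan : Span {R | R ∈ S ∧ R ∈ Below G p T} T := by
          -- the coefficients of the tiles
          have hco : ∀ P, ∃ a : Finset V → ℤ, P ∈ PP → h (θ P) ≠ 0 →
              (∀ R, a R ≠ 0 → R ∈ S ∧ IsTri G R ∧ Le p R P) ∧
                ∀ u v, u ≠ v → chi P u v = ∑ R, a R * chi R u v := by
            intro P
            by_cases hP : P ∈ PP ∧ h (θ P) ≠ 0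
            · obtain ⟨hP, hhP⟩ := hP
              have hne2 : θ P + θ P ≠ 0 := by
                rcases hall P hP with e | e | e
                · exact absurd (by rw [e, h0]) hhP
                · rw [e]; exact h2θ
                · rw [e]
                  intro e'
                  apply h2θ
                  have : -(θ0 + θ0) = 0 := by rw [neg_add, e']
                  exact neg_eq_zero.1 this
              obtain ⟨a, ha⟩ := h4 P hP hne2
              exact ⟨a, fun _ _ => ha⟩
            · exact ⟨0, fun h1 h2 => absurd ⟨h1, h2⟩ hP⟩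
          choose a ha using hco
          refine ⟨fun R => ∑ P ∈ PP, s * h (θ P) * a P R, ?_, ?_⟩
          · intro R hR
            obtain ⟨P, hP, hne⟩ := exists_ne_zero_of_sum_ne_zero hR
            have hhP : h (θ P) ≠ 0 := by
              intro h'; apply hne; rw [h']; ring
            have haP : a P R ≠ 0 := by
              intro h'; apply hne; rw [h']; ring
            obtain ⟨h6, h7, h8⟩ := (ha P hP hhP).1 R haP
            exact ⟨h6, hdown P (h1 P hP) R h7 h8⟩
          · intro u v huv
            have e1 : ∑ R, (∑ P ∈ PP, s * h (θ P) * a P R) * chi R u v =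
                ∑ P ∈ PP, (s * h (θ P)) * chi P u v := by
              simp_rw [sum_mul]
              rw [sum_comm]
              apply sum_congr rfl
              intro P hP
              by_cases hhP : h (θ P) = 0
              · simp [hhP]
              · rw [(ha P hP hhP).2 u v huv, mul_sum]
                apply sum_congr rfl
                intro R _
                ring
            rw [e1, h2' u v huv, ← mul_sum, ← mul_sum, ← h_AA hU h0, ← h_AA hU h0, ← mul_add]
            have hss : s * s = 1 := by
              rcases hs with hs | hs <;> rw [hs] <;> norm_num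
            by_cases hm : (u, v) ∈ sides p T
            · have e2 := hB _ hm
              change AA p PP θ (v, u) = 0 at e2
              rw [hsv _ hm, e2, h0, add_zero, hss]
              rw [mem_sides] at hm
              unfold chi
              rw [if_pos hm.mem]
            · by_cases hm' : (v, u) ∈ sides p T
              · have e2 := hB _ hm'
                change AA p PP θ (u, v) = 0 at e2
                rw [hsv _ hm', e2, h0, zero_add, hss]
                rw [mem_sides] at hm'
                unfold chi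
                rw [if_pos hm'.mem.symm]
              · have e2 := hin (u, v) hm hm'
                change AA p PP θ (u, v) + AA p PP θ (v, u) = 0 at e2
                have e3 : AA p PP θ (v, u) = - AA p PP θ (u, v) := by
                  rw [eq_neg_iff_add_eq_zero, add_comm]; exact e2
                rw [e3, hodd, add_neg_cancel, mul_zero]
                unfold chi
                rw [if_neg]
                rintro ⟨hu, hv⟩
                rw [mem_sides] at hm hm'
                rcases L_or hp hT hu hv huv with h' | h'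
                · exact hm h'
                · exact hm' h'
        refine ⟨c, hval c hcv, ?_, fun _ => hspan⟩
        intro hcc
        exfalso
        obtain ⟨a, b, c', rfl, -, -, -, hD⟩ := tri_orient hp hT
        have m1 : (a, b) ∈ sides p {a, b, c'} := by rw [sides_eq hD]; simp
        have e1 := hcv _ m1
        rcases hbd _ m1 with e2 | e2
        · rw [e1] at e2
          rw [e2] at hcc
          exact h2θ hcc
        · rw [e1] at e2
          rw [e2, ← neg_add] at hcc
          exact h2θ (neg_eq_zero.1 hcc)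

/-- Solutions of the edge equations supported on an independent set of triangles have order two. -/
theorem order_two {A : Type} [AddCommGroup A] (hp : Drawing G p) {S : Set (Finset V)}
    {f : Finset V → A} (hfS : ∀ R, R ∉ S → f R = 0)
    (hind : ∀ T ∈ S, IsTri G T → ¬ Span {R | R ∈ S ∧ R ≠ T} T)
    (heq : ∀ u v, u ≠ v → FF f (Tris G) u v = 0) :
    ∀ R, IsTri G R → f R + f R = 0 := by
  obtain ⟨PP, θ, h1, h2, h2', hU, h3, h4, h5⟩ := core hp hfS hind (DD := Tris G)
    (fun P hP => mem_Tris.1 hP) (fun P _ R hR _ => mem_Tris.2 hR)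
    (fun P hP => claim hp hfS hind _ P (mem_Tris.1 hP) rfl)
    (fun P _ u v huv _ _ => heq u v huv)
  have hz := tiles_zero (θ := θ) hp (fun P hP => mem_Tris.1 (h1 P hP)) hU (by
    rintro ⟨u, v⟩
    by_cases huv : u = v
    · subst huv
      have : AA p PP θ (u, u) = 0 := by
        unfold AA
        apply sum_eq_zero
        intro P hP
        rw [mem_filter, mem_sides] at hP
        exact absurd rfl hP.2.ne
      change AA p PP θ (u, u) + AA p PP θ (u, u) = 0
      rw [this, add_zero]
    · change AA p PP θ (u, v) + AA p PP θ (v, u) = 0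
      rw [← h2 u v huv]
      exact heq u v huv)
  intro R hR
  obtain ⟨P, hP, hRP⟩ := h5 R (mem_Tris.2 hR)
  exact h3 P hP (by rw [hz P hP, add_zero]) R hR hRP

end

end Pool.Agent.V11119.TriDec
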